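import Pool.Agent.Work.MP_6dc561_nt.AA.Weights

/-!
# The number of exceptional twists at one scale
-/

set_option autoImplicit false

open Finset

namespace Pool.Agent.Work.MP_6dc561_nt.AA

/-- an enumeration of odd primes with Chebyshev growth -/
structure PrimeSeq (pr : ℕ → ℕ) (C : ℝ) : Prop where
  mono : StrictMono pr
  prime : ∀ i, (pr i).Prime
  odd : ∀ i, pr i ≠ 2
  pos : 0 < C
  growth : ∀ n : ℕ, (pr n : ℝ) ≤ C * ((n : ℝ) + 1) * Real.log (pr n)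

/-- the twisted sum over the first `n` primes -/
noncomputable def TT (pr : ℕ → ℕ) (g : ℕ → ℝ) (n : ℕ) (d : ℤ) : ℝ :=
  ∑ i ∈ range n, g (pr i) * chi d (pr i)

/-- the number of the first `n` primes that divide `d` -/
noncomputable def WW (pr : ℕ → ℕ) (n : ℕ) (d : ℤ) : ℕ := #{i ∈ range n | (pr i : ℤ) ∣ d}

variable {pr : ℕ → ℕ} {C : ℝ}

/-- the first `n` primes -/
def PP (pr : ℕ → ℕ) (n : ℕ) : Finset ℕ := (range n).image pr

theorem PrimeSeq.sum_PP (h : PrimeSeq pr C) (n : ℕ) (F : ℕ → ℝ) :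
    ∑ p ∈ PP pr n, F p = ∑ i ∈ range n, F (pr i) := by
  unfold PP
  rw [sum_image (fun a _ b _ hab => h.mono.injective hab)]

theorem PrimeSeq.card_PP (h : PrimeSeq pr C) (n : ℕ) : (PP pr n).card = n := by
  unfold PP
  rw [card_image_of_injective _ h.mono.injective, card_range]

theorem PrimeSeq.TT_eq (h : PrimeSeq pr C) (g : ℕ → ℝ) (n : ℕ) (d : ℤ) :
    TT pr g n d = ∑ p ∈ PP pr n, g p * chi d p := by
  rw [h.sum_PP n fun p => g p * chi d p]; rfl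

theorem PrimeSeq.mem_PP (h : PrimeSeq pr C) {n p : ℕ} (hp : p ∈ PP pr (n + 1)) :
    p.Prime ∧ p ≠ 2 ∧ p ≤ pr n := by
  unfold PP at hp
  rw [mem_image] at hp
  obtain ⟨i, hi, rfl⟩ := hp
  rw [mem_range] at hi
  exact ⟨h.prime i, h.odd i, h.mono.monotone (by omega)⟩

/-- Chebyshev's inequality for counting -/
theorem card_bad_mul_le (s : Finset ℤ) (F : ℤ → ℝ) {a : ℝ} (ha : 0 ≤ a) (k : ℕ) :
    (#{d ∈ s | a < |F d|} : ℝ) * (a ^ k) ^ 2 ≤ ∑ d ∈ s, (F d ^ k) ^ 2 := by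
  calc (#{d ∈ s | a < |F d|} : ℝ) * (a ^ k) ^ 2 = ∑ d ∈ s with a < |F d|, (a ^ k) ^ 2 := by
        rw [sum_const, nsmul_eq_mul]
    _ ≤ ∑ d ∈ s with a < |F d|, (F d ^ k) ^ 2 := by
        refine sum_le_sum fun d hd => ?_
        rw [mem_filter] at hd
        rw [← sq_abs (F d ^ k), abs_pow]
        have := pow_le_pow_left₀ ha hd.2.le k
        exact pow_le_pow_left₀ (pow_nonneg ha k) this 2
    _ ≤ ∑ d ∈ s, (F d ^ k) ^ 2 :=
        sum_le_sum_of_subset_of_nonneg (filter_subset _ _) fun d _ _ => sq_nonneg _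

theorem SqfSet.card_le {s : Finset ℤ} {D : ℕ} (h : SqfSet s D) : (s.card : ℝ) ≤ 2 * D := by
  have h1 : s ⊆ (Finset.Icc (-(D : ℤ)) D).erase 0 := by
    intro d hd
    rw [mem_erase, Finset.mem_Icc]
    have h2 := h.le d hd
    have h3 : |d| ≤ (D : ℤ) := by exact_mod_cast h2
    rw [abs_le] at h3
    exact ⟨(h.sqf d hd).ne_zero, h3⟩
  have h2 := card_le_card h1
  rw [card_erase_of_mem (by simp), Int.card_Icc] at h2
  have h3 : ((D : ℤ) + 1 - -(D : ℤ)).toNat = 2 * D + 1 := by omega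
  rw [h3] at h2
  have : s.card ≤ 2 * D := by omega
  exact_mod_cast this

/-- regime A: the primes are small -/
theorem bad_A (h : PrimeSeq pr C) {s : Finset ℤ} {D : ℕ} (hs : SqfSet s D) (hD : 1 ≤ D)
    {g : ℕ → ℝ} {M : ℝ} (hM : 0 ≤ M) (hg : ∀ p, |g p| ≤ M) {η : ℝ} (hη : 0 < η) (n : ℕ)
    (hq : (pr n) ^ 4 ≤ D) :
    (#{d ∈ s | η * (n + 1 : ℕ) < |TT pr g (n + 1) d|} : ℝ) ≤
      (M / η) ^ 2 * (3 * D / (n + 1 : ℕ) + Real.sqrt D) := by
  have h1 := card_bad_mul_le s (TT pr g (n + 1)) (a := η * (n + 1 : ℕ)) (by positivity) 1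
  simp only [pow_one] at h1
  have h2 := second_moment hs (P := PP pr (n + 1)) (q := pr n)
    (fun p hp => ⟨(h.mem_PP hp).1, (h.mem_PP hp).2.1⟩) (fun p hp => (h.mem_PP hp).2.2)
    hM (fun p _ => hg p)
  simp_rw [← h.TT_eq g] at h2
  rw [h.card_PP] at h2
  set N : ℝ := ((n + 1 : ℕ) : ℝ) with hN
  have hN0 : 0 < N := by rw [hN]; positivity
  have hD' : (1 : ℝ) ≤ D := by exact_mod_cast hD
  have h3 : ((pr n : ℕ) : ℝ) ^ 2 ≤ Real.sqrt D := by
    rw [← Real.sqrt_sq (by positivity : (0 : ℝ) ≤ ((pr n : ℕ) : ℝ) ^ 2)]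
    apply Real.sqrt_le_sqrt
    have : ((pr n : ℕ) : ℝ) ^ 4 ≤ D := by exact_mod_cast hq
    calc (((pr n : ℕ) : ℝ) ^ 2) ^ 2 = ((pr n : ℕ) : ℝ) ^ 4 := by ring
      _ ≤ (D : ℝ) := this
  have h4 := h1.trans h2
  have h5 : M ^ 2 * ((2 * D + 1) * N + N ^ 2 * ((pr n : ℕ) : ℝ) ^ 2) ≤
      ((M / η) ^ 2 * (3 * D / N + Real.sqrt D)) * (η * N) ^ 2 := by
    have e : ((M / η) ^ 2 * (3 * D / N + Real.sqrt D)) * (η * N) ^ 2 =
        M ^ 2 * (3 * D * N + N ^ 2 * Real.sqrt D) := by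
      field_simp
    rw [e]
    apply mul_le_mul_of_nonneg_left _ (sq_nonneg M)
    have e1 : (2 * (D : ℝ) + 1) * N ≤ 3 * D * N := by nlinarith
    have e2 : N ^ 2 * ((pr n : ℕ) : ℝ) ^ 2 ≤ N ^ 2 * Real.sqrt D :=
      mul_le_mul_of_nonneg_left h3 (sq_nonneg N)
    linarith
  have h6 := h4.trans h5
  exact le_of_mul_le_mul_right h6 (by positivity)

/-- regime B: the primes are polynomially bounded -/
theorem bad_B (h : PrimeSeq pr C) {s : Finset ℤ} {D : ℕ} (hs : SqfSet s D)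
    {g : ℕ → ℝ} {M : ℝ} (hM : 0 ≤ M) (hg : ∀ p, |g p| ≤ M) {η : ℝ} (hη : 0 < η) (n : ℕ)
    (hq : D < (pr n) ^ 4) :
    (#{d ∈ s | η * (n + 1 : ℕ) < |TT pr g (n + 1) d|} : ℝ) ≤
      (M / η) ^ 24 * (10 * 12 ^ 12 * (C * Real.log (pr n)) ^ 12) := by
  have h1 := card_bad_mul_le s (TT pr g (n + 1)) (a := η * (n + 1 : ℕ)) (by positivity) 12
  have h2 := moment hs (P := PP pr (n + 1)) (q := pr n)
    (fun p hp => (h.mem_PP hp).1) (fun p hp => (h.mem_PP hp).2.2) (fun p _ => hg p) 12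
  simp_rw [← h.TT_eq g] at h2
  rw [h.card_PP] at h2
  set N : ℝ := ((n + 1 : ℕ) : ℝ) with hN
  have hN0 : 0 < N := by rw [hN]; positivity
  set q : ℝ := ((pr n : ℕ) : ℝ) with hqdef
  have hq1 : (1 : ℝ) ≤ q := by rw [hqdef]; exact_mod_cast (h.prime n).one_lt.le
  have hDq : (D : ℝ) ≤ q ^ 4 := by rw [hqdef]; exact_mod_cast hq.le
  have hD0 : (0 : ℝ) ≤ D := Nat.cast_nonneg _
  have hcard := hs.card_le
  have h3 : q ^ 12 + 1 + 4 * (D : ℝ) ^ 2 * s.card ≤ 10 * q ^ 12 := by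
    have e1 : 4 * (D : ℝ) ^ 2 * s.card ≤ 8 * (D : ℝ) ^ 3 := by nlinarith [sq_nonneg (D : ℝ)]
    have e2 : (D : ℝ) ^ 3 ≤ q ^ 12 := by
      calc (D : ℝ) ^ 3 ≤ (q ^ 4) ^ 3 := pow_le_pow_left₀ hD0 hDq 3
        _ = q ^ 12 := by ring
    have e3 : (1 : ℝ) ≤ q ^ 12 := one_le_pow₀ hq1
    linarith
  have hgr : q ≤ C * Real.log q * N := by
    have := h.growth n
    rw [hN]; push_cast
    calc q ≤ C * ((n : ℝ) + 1) * Real.log (pr n) := this
      _ = _ := by ring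
  have hlog : 0 ≤ Real.log q := Real.log_nonneg hq1
  have h4 : q ^ 12 ≤ (C * Real.log q) ^ 12 * N ^ 12 := by
    rw [← mul_pow]
    exact pow_le_pow_left₀ (by linarith) hgr 12
  have h5 := h1.trans h2
  have h6 : (q ^ 12 + 1 + 4 * (D : ℝ) ^ 2 * s.card) * (M ^ (2 * 12) * ((12 : ℕ) : ℝ) ^ 12 * N ^ 12) ≤
      ((M / η) ^ 24 * (10 * 12 ^ 12 * (C * Real.log q) ^ 12)) * ((η * N) ^ 12) ^ 2 := by
    have e : ((M / η) ^ 24 * (10 * 12 ^ 12 * (C * Real.log q) ^ 12)) * ((η * N) ^ 12) ^ 2 =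
        (10 * ((C * Real.log q) ^ 12 * N ^ 12)) * (M ^ (2 * 12) * ((12 : ℕ) : ℝ) ^ 12 * N ^ 12) := by
      have e0 : ((η * N) ^ 12) ^ 2 = η ^ 24 * N ^ 24 := by ring
      have e1 : (M / η) ^ 24 = M ^ 24 / η ^ 24 := div_pow _ _ _
      have e2 : η ^ 24 ≠ 0 := by positivity
      rw [e0, e1]
      push_cast
      field_simp
    rw [e]
    apply mul_le_mul_of_nonneg_right _ (by positivity)
    linarith
  exact le_of_mul_le_mul_right (h5.trans h6) (by positivity)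

/-- an integral tenth root -/
theorem exists_root (q : ℕ) (hq : 2 ^ 10 ≤ q) : ∃ R : ℕ, 2 ≤ R ∧ R ^ 10 ≤ q ∧ q < R ^ 20 := by
  have hex : ∃ R : ℕ, q < (R + 1) ^ 10 :=
    ⟨q, lt_of_lt_of_le (Nat.lt_succ_self q) (Nat.le_self_pow (by norm_num) _)⟩
  classical
  refine ⟨Nat.find hex, ?_, ?_, ?_⟩
  · by_contra hlt
    push Not at hlt
    have h1 := Nat.find_spec hex
    have h2 : (Nat.find hex + 1) ^ 10 ≤ 2 ^ 10 := Nat.pow_le_pow_left (by omega) 10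
    omega
  · by_contra hlt
    push Not at hlt
    have h0 : Nat.find hex ≠ 0 := by
      intro h0
      rw [h0] at hlt
      simp at hlt
    obtain ⟨R, hR⟩ := Nat.exists_eq_succ_of_ne_zero h0
    rw [hR] at hlt
    have := Nat.find_min' hex hlt
    omega
  · have h1 := Nat.find_spec hex
    have h2 : 2 ≤ Nat.find hex := by
      by_contra hlt
      push Not at hlt
      have h2 : (Nat.find hex + 1) ^ 10 ≤ 2 ^ 10 := Nat.pow_le_pow_left (by omega) 10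
      omega
    calc q < (Nat.find hex + 1) ^ 10 := h1
      _ ≤ (Nat.find hex ^ 2) ^ 10 := Nat.pow_le_pow_left (by nlinarith) 10
      _ = Nat.find hex ^ 20 := by rw [← pow_mul]

/-- regime C: the primes are very large -/
theorem bad_C (h : PrimeSeq pr C) {s : Finset ℤ} {D : ℕ} (hs : SqfSet s D) (hD : 1 ≤ D)
    {g : ℕ → ℝ} {M : ℝ} (hM : 0 ≤ M) (hg : ∀ p, |g p| ≤ M) {η : ℝ} (hη : 0 < η) (n : ℕ)
    (hq : D ^ 5 < pr n) (hq2 : 2 ^ 10 ≤ pr n) :
    (#{d ∈ s | η * (n + 1 : ℕ) < |TT pr g (n + 1) d|} : ℝ) ≤ (M / η) ^ 2 * (200 * C) := by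
  classical
  obtain ⟨R, hR2, hR10, hR20⟩ := exists_root (pr n) hq2
  set N : ℝ := ((n + 1 : ℕ) : ℝ) with hN
  have hN1 : 1 ≤ N := by rw [hN]; exact_mod_cast Nat.succ_le_succ (Nat.zero_le n)
  have hN0 : 0 < N := by linarith
  set q : ℝ := ((pr n : ℕ) : ℝ) with hqdef
  have hq1 : (1 : ℝ) < q := by rw [hqdef]; exact_mod_cast (h.prime n).one_lt
  have hlogq : 0 < Real.log q := Real.log_pos hq1
  have hR1 : (1 : ℝ) < R := by exact_mod_cast hR2
  have hlogR : 0 < Real.log R := Real.log_pos hR1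
  have hgr : q ≤ C * N * Real.log q := by
    have := h.growth n
    rw [hN]; push_cast
    exact this
  have hD1 : (1 : ℝ) ≤ D := by exact_mod_cast hD
  have hcard := hs.card_le
  -- split the sum
  set P1 := (PP pr (n + 1)).filter (fun p => R < p) with hP1
  set P2 := (PP pr (n + 1)).filter (fun p => ¬ R < p) with hP2
  have hsplit : ∀ d, TT pr g (n + 1) d = ∑ p ∈ P1, g p * chi d p + ∑ p ∈ P2, g p * chi d p := by
    intro d
    rw [h.TT_eq, ← sum_filter_add_sum_filter_not (PP pr (n + 1)) (fun p => R < p)]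
  have hP1card : (P1.card : ℝ) ≤ N := by
    have : P1.card ≤ (PP pr (n + 1)).card := card_le_card (filter_subset _ _)
    rw [h.card_PP] at this
    rw [hN]; exact_mod_cast this
  have hP2card : (P2.card : ℝ) ≤ R := by
    have : P2 ⊆ Finset.Icc 1 R := by
      intro p hp
      rw [hP2, mem_filter] at hp
      rw [Finset.mem_Icc]
      exact ⟨(h.mem_PP hp.1).1.one_lt.le, not_lt.1 hp.2⟩
    have := card_le_card this
    rw [Nat.card_Icc, Nat.add_sub_cancel] at this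
    exact_mod_cast this
  have hS2 : ∀ d, (∑ p ∈ P2, g p * chi d p) ^ 2 ≤ M ^ 2 * (R : ℝ) ^ 2 := by
    intro d
    have h1 : |∑ p ∈ P2, g p * chi d p| ≤ M * R := by
      calc |∑ p ∈ P2, g p * chi d p| ≤ ∑ p ∈ P2, |g p * chi d p| := abs_sum_le_sum_abs _ _
        _ ≤ ∑ p ∈ P2, M := by
            refine sum_le_sum fun p _ => ?_
            rw [abs_mul]
            calc |g p| * |chi d p| ≤ M * 1 :=
                  mul_le_mul (hg p) (abs_chi_le _ _) (abs_nonneg _) hM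
              _ = M := mul_one M
        _ = P2.card * M := by rw [sum_const, nsmul_eq_mul]
        _ ≤ R * M := mul_le_mul_of_nonneg_right hP2card hM
        _ = M * R := mul_comm _ _
    rw [← sq_abs, ← mul_pow]
    exact pow_le_pow_left₀ (abs_nonneg _) h1 2
  have hS1 := large_sieve_primes hs (P := P1) (q := pr n) hR2 (fun p hp => by
    rw [hP1, mem_filter] at hp
    exact ⟨(h.mem_PP hp.1).1, hp.2, (h.mem_PP hp.1).2.2⟩) g
  have hg2 : ∑ p ∈ P1, g p ^ 2 ≤ N * M ^ 2 := by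
    calc ∑ p ∈ P1, g p ^ 2 ≤ ∑ p ∈ P1, M ^ 2 := by
          refine sum_le_sum fun p _ => ?_
          rw [← sq_abs]
          exact pow_le_pow_left₀ (abs_nonneg _) (hg p) 2
      _ = P1.card * M ^ 2 := by rw [sum_const, nsmul_eq_mul]
      _ ≤ N * M ^ 2 := mul_le_mul_of_nonneg_right hP1card (sq_nonneg M)
  -- the numerical estimates
  have e1 : 2 * q / Real.log R ≤ 40 * C * N := by
    have h1 : Real.log q ≤ 20 * Real.log R := by
      have h2 : q ≤ (R : ℝ) ^ 20 := by rw [hqdef]; exact_mod_cast hR20.le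
      calc Real.log q ≤ Real.log ((R : ℝ) ^ 20) := Real.log_le_log (by linarith) h2
        _ = 20 * Real.log R := by rw [Real.log_pow]; norm_num
    rw [div_le_iff₀ hlogR]
    have h3 : C * N * Real.log q ≤ C * N * (20 * Real.log R) :=
      mul_le_mul_of_nonneg_left h1 (by have := h.pos; positivity)
    linarith
  have e2 : (R : ℝ) ^ 2 * (D : ℝ) ^ 3 ≤ 5 * C * N := by
    -- `t = q^(1/5)`
    set t : ℝ := q ^ ((1 : ℝ) / 5) with ht
    have ht0 : 0 < t := Real.rpow_pos_of_pos (by linarith) _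
    have ht5 : t ^ 5 = q := by
      rw [ht, ← Real.rpow_natCast, ← Real.rpow_mul (by linarith)]
      norm_num
    have hR : (R : ℝ) ^ 2 ≤ t := by
      have h1 : ((R : ℝ) ^ 2) ^ 5 ≤ t ^ 5 := by
        rw [ht5, ← pow_mul, hqdef]
        exact_mod_cast hR10
      exact le_of_pow_le_pow_left₀ (by norm_num) ht0.le h1
    have hDt : (D : ℝ) ≤ t := by
      have h1 : (D : ℝ) ^ 5 ≤ t ^ 5 := by
        rw [ht5, hqdef]
        exact_mod_cast hq.le
      exact le_of_pow_le_pow_left₀ (by norm_num) ht0.le h1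
    have h1 : (R : ℝ) ^ 2 * (D : ℝ) ^ 3 ≤ t ^ 4 := by
      calc (R : ℝ) ^ 2 * (D : ℝ) ^ 3 ≤ t * t ^ 3 :=
            mul_le_mul hR (pow_le_pow_left₀ (by linarith) hDt 3) (by positivity) ht0.le
        _ = t ^ 4 := by ring
    have h2 : Real.log q ≤ 5 * t := by
      rw [← ht5, Real.log_pow]
      have := Real.log_le_self ht0.le
      push_cast
      linarith
    have h3 : t ^ 4 * Real.log q ≤ 5 * C * N * Real.log q := by
      calc t ^ 4 * Real.log q ≤ t ^ 4 * (5 * t) := mul_le_mul_of_nonneg_left h2 (by positivity)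
        _ = 5 * t ^ 5 := by ring
        _ = 5 * q := by rw [ht5]
        _ ≤ 5 * (C * N * Real.log q) := by linarith
        _ = _ := by ring
    exact h1.trans (le_of_mul_le_mul_right h3 hlogq)
  have hR0 : (0 : ℝ) ≤ (R : ℝ) ^ 2 := sq_nonneg _
  have hD3 : (1 : ℝ) ≤ (D : ℝ) ^ 3 := one_le_pow₀ hD1
  have e3 : (R : ℝ) ^ 2 ≤ 5 * C * N := by
    calc (R : ℝ) ^ 2 = (R : ℝ) ^ 2 * 1 := (mul_one _).symm
      _ ≤ (R : ℝ) ^ 2 * (D : ℝ) ^ 3 := mul_le_mul_of_nonneg_left hD3 hR0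
      _ ≤ _ := e2
  have e4 : 4 * (D : ℝ) ^ 2 * (R : ℝ) ^ 2 * s.card ≤ 40 * C * N := by
    calc 4 * (D : ℝ) ^ 2 * (R : ℝ) ^ 2 * s.card ≤ 4 * (D : ℝ) ^ 2 * (R : ℝ) ^ 2 * (2 * D) :=
          mul_le_mul_of_nonneg_left hcard (by positivity)
      _ = 8 * ((R : ℝ) ^ 2 * (D : ℝ) ^ 3) := by ring
      _ ≤ 8 * (5 * C * N) := by linarith
      _ = 40 * C * N := by ring
  have e5 : (s.card : ℝ) * (M ^ 2 * (R : ℝ) ^ 2) ≤ 10 * C * N * M ^ 2 := by
    have hDD : (D : ℝ) ≤ (D : ℝ) ^ 3 := by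
      nlinarith [mul_nonneg (by linarith : (0 : ℝ) ≤ D) (by nlinarith : (0 : ℝ) ≤ (D : ℝ) ^ 2 - 1)]
    calc (s.card : ℝ) * (M ^ 2 * (R : ℝ) ^ 2) ≤ (2 * D) * (M ^ 2 * (R : ℝ) ^ 2) :=
          mul_le_mul_of_nonneg_right hcard (by positivity)
      _ = 2 * M ^ 2 * ((R : ℝ) ^ 2 * D) := by ring
      _ ≤ 2 * M ^ 2 * ((R : ℝ) ^ 2 * (D : ℝ) ^ 3) := by gcongr
      _ ≤ 2 * M ^ 2 * (5 * C * N) := by gcongr
      _ = _ := by ring
  have hsum : ∑ d ∈ s, (TT pr g (n + 1) d) ^ 2 ≤ 200 * C * N ^ 2 * M ^ 2 := by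
    have h1 : ∑ d ∈ s, (TT pr g (n + 1) d) ^ 2 ≤
        ∑ d ∈ s, (2 * (∑ p ∈ P1, g p * chi d p) ^ 2 + 2 * (M ^ 2 * (R : ℝ) ^ 2)) := by
      refine sum_le_sum fun d _ => ?_
      rw [hsplit d]
      have := hS2 d
      nlinarith [sq_nonneg (∑ p ∈ P1, g p * chi d p - ∑ p ∈ P2, g p * chi d p)]
    have h2 : ∑ d ∈ s, (2 * (∑ p ∈ P1, g p * chi d p) ^ 2 + 2 * (M ^ 2 * (R : ℝ) ^ 2)) =
        2 * ∑ d ∈ s, (∑ p ∈ P1, g p * chi d p) ^ 2 + 2 * (s.card * (M ^ 2 * (R : ℝ) ^ 2)) := by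
      rw [sum_add_distrib, ← mul_sum, sum_const, nsmul_eq_mul]; ring
    have hC := h.pos
    have h3 : (2 * q / Real.log R + (R : ℝ) ^ 2 + 4 * (D : ℝ) ^ 2 * (R : ℝ) ^ 2 * s.card) *
        ∑ p ∈ P1, g p ^ 2 ≤ (85 * C * N) * (N * M ^ 2) := by
      apply mul_le_mul _ hg2 (sum_nonneg fun _ _ => sq_nonneg _) (by positivity)
      linarith
    have h4 := hS1.trans h3
    have h5 : C * N * M ^ 2 ≤ C * N ^ 2 * M ^ 2 := by
      have : N ≤ N ^ 2 := by nlinarith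
      gcongr
    have h6 : (85 * C * N) * (N * M ^ 2) = 85 * (C * N ^ 2 * M ^ 2) := by ring
    have h7 : 200 * C * N ^ 2 * M ^ 2 = 200 * (C * N ^ 2 * M ^ 2) := by ring
    rw [h7]
    have h8 : 10 * C * N * M ^ 2 = 10 * (C * N * M ^ 2) := by ring
    rw [h8] at e5
    have h9 : 0 ≤ C * N ^ 2 * M ^ 2 := by positivity
    linarith
  have h1 := card_bad_mul_le s (TT pr g (n + 1)) (a := η * N) (by positivity) 1
  simp only [pow_one] at h1
  have h2 := h1.trans hsum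
  have h3 : 200 * C * N ^ 2 * M ^ 2 = ((M / η) ^ 2 * (200 * C)) * (η * N) ^ 2 := by
    field_simp
  rw [h3] at h2
  exact le_of_mul_le_mul_right h2 (by positivity)

/-- the number of multiples of `p` in `s` -/
theorem card_dvd_le {s : Finset ℤ} {D : ℕ} (hs : SqfSet s D) {p : ℕ} (hp : 0 < p) :
    (#{d ∈ s | (p : ℤ) ∣ d} : ℝ) ≤ 2 * D / p := by
  have h1 : {d ∈ s | (p : ℤ) ∣ d} ⊆
      ((Finset.Icc (-((D / p : ℕ) : ℤ)) ((D / p : ℕ) : ℤ)).erase 0).image (fun m => (p : ℤ) * m) := by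
    intro d hd
    rw [mem_filter] at hd
    obtain ⟨hd1, m, rfl⟩ := hd
    rw [mem_image]
    refine ⟨m, ?_, rfl⟩
    rw [mem_erase, Finset.mem_Icc]
    have h0 := (hs.sqf _ hd1).ne_zero
    have h2 := hs.le _ hd1
    have h3 : |(p : ℤ) * m| ≤ (D : ℤ) := by exact_mod_cast h2
    rw [abs_mul, Nat.abs_cast] at h3
    have h4 : |m| ≤ ((D / p : ℕ) : ℤ) := by
      push_cast
      rw [Int.le_ediv_iff_mul_le (by exact_mod_cast hp)]
      linarith
    rw [abs_le] at h4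
    exact ⟨right_ne_zero_of_mul h0, h4⟩
  have h2 := (card_le_card h1).trans card_image_le
  have h0 : (0 : ℤ) ∈ Finset.Icc (-((D / p : ℕ) : ℤ)) ((D / p : ℕ) : ℤ) :=
    Finset.mem_Icc.2 ⟨neg_nonpos.2 (Int.natCast_nonneg _), Int.natCast_nonneg _⟩
  rw [card_erase_of_mem h0, Int.card_Icc] at h2
  have h3 : (((D / p : ℕ) : ℤ) + 1 - -((D / p : ℕ) : ℤ)).toNat = 2 * (D / p) + 1 := by omega
  rw [h3, Nat.add_sub_cancel] at h2
  have h4 : ((D / p : ℕ) : ℝ) ≤ D / p := Nat.cast_div_le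
  calc (#{d ∈ s | (p : ℤ) ∣ d} : ℝ) ≤ ((2 * (D / p) : ℕ) : ℝ) := by exact_mod_cast h2
    _ = 2 * ((D / p : ℕ) : ℝ) := by push_cast; ring
    _ ≤ 2 * (D / p) := by linarith
    _ = _ := by ring

/-- the exceptional set for the number of ramified primes -/
theorem bad_W (h : PrimeSeq pr C) {s : Finset ℤ} {D : ℕ} (hs : SqfSet s D) {η : ℝ} (hη : 0 < η)
    (n : ℕ) :
    (#{d ∈ s | η * (n + 1 : ℕ) < (WW pr (n + 1) d : ℝ)} : ℝ) ≤
      2 * D / η * (4 / ((n + 1 : ℕ) : ℝ) ^ (3 / 4 : ℝ)) := by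
  set N : ℝ := ((n + 1 : ℕ) : ℝ) with hN
  have hN1 : 1 ≤ N := by rw [hN]; exact_mod_cast Nat.succ_le_succ (Nat.zero_le n)
  have hN0 : 0 < N := by linarith
  have h1 : (#{d ∈ s | η * N < (WW pr (n + 1) d : ℝ)} : ℝ) * (η * N) ≤
      ∑ d ∈ s, (WW pr (n + 1) d : ℝ) := by
    calc (#{d ∈ s | η * N < (WW pr (n + 1) d : ℝ)} : ℝ) * (η * N)
        = ∑ d ∈ s with η * N < (WW pr (n + 1) d : ℝ), η * N := by rw [sum_const, nsmul_eq_mul]
      _ ≤ ∑ d ∈ s with η * N < (WW pr (n + 1) d : ℝ), (WW pr (n + 1) d : ℝ) := by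
          refine sum_le_sum fun d hd => ?_
          rw [mem_filter] at hd
          exact hd.2.le
      _ ≤ ∑ d ∈ s, (WW pr (n + 1) d : ℝ) :=
          sum_le_sum_of_subset_of_nonneg (filter_subset _ _) fun d _ _ => Nat.cast_nonneg _
  have h2 : ∑ d ∈ s, (WW pr (n + 1) d : ℝ) =
      ∑ i ∈ range (n + 1), (#{d ∈ s | ((pr i : ℕ) : ℤ) ∣ d} : ℝ) := by
    unfold WW
    simp_rw [card_filter]
    push_cast
    rw [sum_comm]
  have h3 : ∑ i ∈ range (n + 1), (#{d ∈ s | ((pr i : ℕ) : ℤ) ∣ d} : ℝ) ≤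
      2 * D * ∑ i ∈ range (n + 1), (1 : ℝ) / ((i : ℝ) + 1) := by
    rw [mul_sum]
    refine sum_le_sum fun i _ => ?_
    refine (card_dvd_le hs (h.prime i).pos).trans ?_
    have hi : i + 1 ≤ pr i := by
      have h4 := h.mono.add_le_nat i 0
      have h5 := (h.prime 0).one_lt
      simp only [add_zero] at h4
      omega
    have hi' : (i : ℝ) + 1 ≤ pr i := by exact_mod_cast hi
    have hi0 : (0 : ℝ) < (i : ℝ) + 1 := by positivity
    rw [mul_one_div]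
    gcongr
  set t : ℝ := N ^ (1 / 4 : ℝ) with ht
  have ht0 : 0 < t := Real.rpow_pos_of_pos hN0 _
  have h4 : ∑ i ∈ range (n + 1), (1 : ℝ) / ((i : ℝ) + 1) ≤ 4 * t := by
    have h5 := harmonic_le_one_add_log (n + 1)
    have h6 : ((harmonic (n + 1) : ℚ) : ℝ) = ∑ i ∈ range (n + 1), (1 : ℝ) / ((i : ℝ) + 1) := by
      unfold harmonic
      push_cast
      refine sum_congr rfl fun i _ => ?_
      rw [one_div]
    rw [h6] at h5
    refine h5.trans ?_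
    have h7 : Real.log N ≤ 4 * (t - 1) := by
      have h8 := Real.log_le_sub_one_of_pos ht0
      rw [ht, Real.log_rpow hN0] at h8
      rw [ht]
      linarith
    change 1 + Real.log N ≤ _
    linarith
  have h5 : (#{d ∈ s | η * N < (WW pr (n + 1) d : ℝ)} : ℝ) * (η * N) ≤
      2 * D * (4 * t) := by
    rw [h2] at h1
    refine h1.trans (h3.trans ?_)
    exact mul_le_mul_of_nonneg_left h4 (by positivity)
  have hN34 : 0 < N ^ (3 / 4 : ℝ) := Real.rpow_pos_of_pos hN0 _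
  have hNt : N = N ^ (3 / 4 : ℝ) * t := by
    rw [ht, ← Real.rpow_add hN0]
    norm_num
  have h6 : 2 * D * (4 * t) = (2 * D / η * (4 / N ^ (3 / 4 : ℝ))) * (η * N) := by
    nth_rewrite 2 [hNt]
    field_simp
  rw [h6] at h5
  exact le_of_mul_le_mul_right h5 (by positivity)

end Pool.Agent.Work.MP_6dc561_nt.AA
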