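import Pool.Agent.Work.MP_6dc561_nt.AA.Count

/-!
# Exceptional twists at all scales
-/

set_option autoImplicit false

open Finset Filter Topology Asymptotics

namespace Pool.Agent.Work.MP_6dc561_nt.AA

variable {pr : ℕ → ℕ} {C : ℝ}

/-- decomposition into scales -/
theorem exists_scale {K : ℕ} (hK : 0 < K) (i₀ n : ℕ) (hn : K * 2 ^ i₀ ≤ n) :
    ∃ i m, i₀ ≤ i ∧ K ≤ m ∧ m < 2 * K ∧ m * 2 ^ i ≤ n ∧ n < m * 2 ^ i + 2 ^ i := by
  have h1 : 2 ^ i₀ ≤ n / K := by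
    rw [Nat.le_div_iff_mul_le hK, mul_comm]; exact hn
  have h0 : n / K ≠ 0 := by
    have : 0 < 2 ^ i₀ := by positivity
    omega
  set i := Nat.log 2 (n / K) with hi
  have h2 : 2 ^ i ≤ n / K := Nat.pow_log_le_self 2 h0
  have h3 : n / K < 2 ^ (i + 1) := Nat.lt_pow_succ_log_self (by norm_num) _
  have h4 : K * 2 ^ i ≤ n := by
    rw [Nat.le_div_iff_mul_le hK] at h2
    rw [mul_comm]; exact h2
  have h5 : n < 2 * K * 2 ^ i := by
    rw [Nat.div_lt_iff_lt_mul hK] at h3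
    calc n < 2 ^ (i + 1) * K := h3
      _ = 2 * K * 2 ^ i := by ring
  have h2i : 0 < 2 ^ i := by positivity
  refine ⟨i, n / 2 ^ i, ?_, ?_, ?_, Nat.div_mul_le_self _ _, ?_⟩
  · exact Nat.le_log_of_pow_le (by norm_num) h1
  · rw [Nat.le_div_iff_mul_le h2i]; exact h4
  · rw [Nat.div_lt_iff_lt_mul h2i]; exact h5
  · have := Nat.lt_div_mul_add (a := n) h2i
    exact this

theorem TT_sub_le {g : ℕ → ℝ} {M : ℝ} (hM : 0 ≤ M) (hg : ∀ p, |g p| ≤ M) {n n' : ℕ}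
    (hn : n' ≤ n) (d : ℤ) : |TT pr g n d| ≤ |TT pr g n' d| + M * ((n : ℝ) - n') := by
  have h1 : TT pr g n d = TT pr g n' d + ∑ i ∈ Ico n' n, g (pr i) * chi d (pr i) := by
    unfold TT
    rw [sum_range_add_sum_Ico _ hn]
  have h2 : |∑ i ∈ Ico n' n, g (pr i) * chi d (pr i)| ≤ M * ((n : ℝ) - n') := by
    calc |∑ i ∈ Ico n' n, g (pr i) * chi d (pr i)| ≤ ∑ i ∈ Ico n' n, |g (pr i) * chi d (pr i)| :=
          abs_sum_le_sum_abs _ _
      _ ≤ ∑ i ∈ Ico n' n, M := by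
          refine sum_le_sum fun i _ => ?_
          rw [abs_mul]
          calc |g (pr i)| * |chi d (pr i)| ≤ M * 1 :=
                mul_le_mul (hg _) (abs_chi_le _ _) (abs_nonneg _) hM
            _ = M := mul_one M
      _ = M * ((n : ℝ) - n') := by
          rw [sum_const, Nat.card_Ico, nsmul_eq_mul, Nat.cast_sub hn]; ring
  rw [h1]
  exact (abs_add_le _ _).trans (by linarith)

theorem WW_sub_le {n n' : ℕ} (hn : n' ≤ n) (d : ℤ) :
    (WW pr n d : ℝ) ≤ WW pr n' d + ((n : ℝ) - n') := by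
  have h1 : WW pr n d ≤ WW pr n' d + (n - n') := by
    unfold WW
    have h2 : {i ∈ range n | (pr i : ℤ) ∣ d} ⊆ {i ∈ range n' | (pr i : ℤ) ∣ d} ∪ Ico n' n := by
      intro i hi
      rw [mem_filter, mem_range] at hi
      rw [mem_union, mem_filter, mem_range, mem_Ico]
      by_cases h : i < n'
      · exact Or.inl ⟨h, hi.2⟩
      · exact Or.inr ⟨not_lt.1 h, hi.1⟩
    have h3 := (card_le_card h2).trans (card_union_le _ _)
    rwa [Nat.card_Ico] at h3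
  have h2 : ((WW pr n' d + (n - n') : ℕ) : ℝ) = WW pr n' d + ((n : ℝ) - n') := by
    push_cast [Nat.cast_sub hn]; ring
  rw [← h2]
  exact_mod_cast h1

/-- the bound in the polynomial range -/
noncomputable def VV (A C : ℝ) (D : ℕ) : ℝ :=
  A * Real.sqrt D + A ^ 12 * (10 * 12 ^ 12 * (C * (5 * Real.log D + 7)) ^ 12)

theorem VV_nonneg {A C : ℝ} (hA : 0 ≤ A) (_hC : 0 ≤ C) {D : ℕ} (hD : 1 ≤ D) : 0 ≤ VV A C D := by
  unfold VV
  have : 0 ≤ Real.log D := Real.log_nonneg (by exact_mod_cast hD)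
  positivity

/-- all regimes together -/
theorem bad_T (h : PrimeSeq pr C) {s : Finset ℤ} {D : ℕ} (hs : SqfSet s D) (hD : 1 ≤ D)
    {g : ℕ → ℝ} {M : ℝ} (hM : 0 ≤ M) (hg : ∀ p, |g p| ≤ M) {η : ℝ} (hη : 0 < η) (i m : ℕ)
    (hm : 1 ≤ m) :
    (#{d ∈ s | η * (m * 2 ^ i : ℕ) < |TT pr g (m * 2 ^ i) d|} : ℝ) ≤
      (M / η) ^ 2 * (3 * D) * (1 / 2) ^ i +
      (if 2 ^ i ≤ 1024 * D ^ 5 then VV ((M / η) ^ 2) C D else 0) +
      (M / η) ^ 2 * (200 * C) := by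
  have hA : 0 ≤ (M / η) ^ 2 := sq_nonneg _
  have hC := h.pos
  have hV := VV_nonneg hA hC.le hD
  have hlogD : 0 ≤ Real.log D := Real.log_nonneg (by exact_mod_cast hD)
  have hN : 0 < m * 2 ^ i := by positivity
  obtain ⟨n, hn⟩ := Nat.exists_eq_succ_of_ne_zero hN.ne'
  have hni : 2 ^ i ≤ n + 1 := by
    calc 2 ^ i = 1 * 2 ^ i := (one_mul _).symm
      _ ≤ m * 2 ^ i := Nat.mul_le_mul_right _ hm
      _ = n + 1 := hn
  have hnq : n + 1 ≤ pr n := by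
    have h4 := h.mono.add_le_nat n 0
    have h5 := (h.prime 0).one_lt
    simp only [add_zero] at h4
    omega
  have t1 : 0 ≤ (M / η) ^ 2 * (3 * D) * (1 / 2 : ℝ) ^ i := by positivity
  have t3 : 0 ≤ (M / η) ^ 2 * (200 * C) := by positivity
  have t2 : 0 ≤ (if 2 ^ i ≤ 1024 * D ^ 5 then VV ((M / η) ^ 2) C D else 0) := by
    split_ifs
    · exact hV
    · exact le_rfl
  rw [hn]
  by_cases hc : D ^ 5 < pr n ∧ 2 ^ 10 ≤ pr n
  · have := bad_C h hs hD hM hg hη n hc.1 hc.2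
    have e : n.succ = n + 1 := rfl
    rw [e]
    linarith
  · -- the polynomial range
    have hq : pr n ≤ 1024 * D ^ 5 := by
      have hD5 : 1 ≤ D ^ 5 := Nat.one_le_pow _ _ hD
      by_cases h1 : D ^ 5 < pr n
      · have h2 : ¬ 2 ^ 10 ≤ pr n := fun h2 => hc ⟨h1, h2⟩
        push Not at h2
        norm_num at h2
        omega
      · push Not at h1
        omega
    have hif : 2 ^ i ≤ 1024 * D ^ 5 := hni.trans (hnq.trans hq)
    rw [if_pos hif]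
    have e : n.succ = n + 1 := rfl
    rw [e]
    by_cases hA4 : (pr n) ^ 4 ≤ D
    · have h1 := bad_A h hs hD hM hg hη n hA4
      have h2 : (3 : ℝ) * D / (n + 1 : ℕ) ≤ 3 * D * (1 / 2) ^ i := by
        have h3 : (2 : ℝ) ^ i ≤ (n + 1 : ℕ) := by exact_mod_cast hni
        have h4 : (1 / 2 : ℝ) ^ i = 1 / 2 ^ i := by rw [one_div_pow]
        rw [h4, mul_one_div]
        exact div_le_div_of_nonneg_left (by positivity) (by positivity) h3
      have h3 : (M / η) ^ 2 * Real.sqrt D ≤ VV ((M / η) ^ 2) C D := by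
        unfold VV
        have : 0 ≤ ((M / η) ^ 2) ^ 12 * (10 * 12 ^ 12 * (C * (5 * Real.log D + 7)) ^ 12) := by
          positivity
        linarith
      have h4 : (M / η) ^ 2 * (3 * D / (n + 1 : ℕ) + Real.sqrt D) ≤
          (M / η) ^ 2 * (3 * D) * (1 / 2) ^ i + VV ((M / η) ^ 2) C D := by
        have := mul_le_mul_of_nonneg_left h2 hA
        calc (M / η) ^ 2 * (3 * D / (n + 1 : ℕ) + Real.sqrt D) =
            (M / η) ^ 2 * (3 * D / (n + 1 : ℕ)) + (M / η) ^ 2 * Real.sqrt D := by ring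
          _ ≤ (M / η) ^ 2 * (3 * D * (1 / 2) ^ i) + VV ((M / η) ^ 2) C D := add_le_add this h3
          _ = _ := by ring
      linarith
    · push Not at hA4
      have h1 := bad_B h hs hM hg hη n hA4
      have hq1 : (1 : ℝ) ≤ pr n := by exact_mod_cast (h.prime n).one_lt.le
      have hlog : Real.log (pr n) ≤ 5 * Real.log D + 7 := by
        have h2 : ((pr n : ℕ) : ℝ) ≤ 1024 * (D : ℝ) ^ 5 := by exact_mod_cast hq
        have hD0 : (D : ℝ) ≠ 0 := by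
          have : (1 : ℝ) ≤ D := by exact_mod_cast hD
          linarith
        calc Real.log (pr n) ≤ Real.log (1024 * (D : ℝ) ^ 5) := Real.log_le_log (by linarith) h2
          _ = Real.log 1024 + 5 * Real.log D := by
              rw [Real.log_mul (by norm_num) (pow_ne_zero _ hD0), Real.log_pow]; norm_num
          _ ≤ 5 * Real.log D + 7 := by
              have h3 : Real.log 1024 = 10 * Real.log 2 := by
                have : (1024 : ℝ) = 2 ^ 10 := by norm_num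
                rw [this, Real.log_pow]; norm_num
              have h4 := Real.log_two_lt_d9
              rw [h3]; linarith
      have h3 : (M / η) ^ 24 * (10 * 12 ^ 12 * (C * Real.log (pr n)) ^ 12) ≤
          VV ((M / η) ^ 2) C D := by
        have hl0 := Real.log_nonneg hq1
        have h4 : (C * Real.log (pr n)) ^ 12 ≤ (C * (5 * Real.log D + 7)) ^ 12 :=
          pow_le_pow_left₀ (by positivity) (mul_le_mul_of_nonneg_left hlog hC.le) 12
        have h5 : (M / η) ^ 24 = ((M / η) ^ 2) ^ 12 := by rw [← pow_mul]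
        unfold VV
        rw [h5]
        have h6 : ((M / η) ^ 2) ^ 12 * (10 * 12 ^ 12 * (C * Real.log (pr n)) ^ 12) ≤
            ((M / η) ^ 2) ^ 12 * (10 * 12 ^ 12 * (C * (5 * Real.log D + 7)) ^ 12) := by
          apply mul_le_mul_of_nonneg_left _ (by positivity)
          apply mul_le_mul_of_nonneg_left h4 (by positivity)
        have h7 : 0 ≤ (M / η) ^ 2 * Real.sqrt D := by positivity
        linarith
      linarith

/-- growth of the error term -/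
theorem VV_bound {A C : ℝ} (hC : 0 ≤ C) (hA : 0 ≤ A) :
    ∃ B : ℝ, 0 ≤ B ∧ ∀ D : ℕ, 1 ≤ D →
      (15 + 10 * Real.log D) * VV A C D ≤ B * (D : ℝ) ^ (3 / 5 : ℝ) := by
  refine ⟨275 * (A + A ^ 12 * (10 * 12 ^ 12 * (C * 137) ^ 12)), by positivity, fun D hD => ?_⟩
  have hD1 : (1 : ℝ) ≤ D := by exact_mod_cast hD
  have hD0 : (0 : ℝ) < D := by linarith
  set u : ℝ := (D : ℝ) ^ (1 / 26 : ℝ) with hu
  have hu1 : 1 ≤ u := Real.one_le_rpow hD1 (by norm_num)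
  have hu0 : 0 < u := by linarith
  have hu26 : ∀ k : ℕ, u ^ k = (D : ℝ) ^ ((k : ℝ) / 26) := by
    intro k
    rw [hu, ← Real.rpow_natCast, ← Real.rpow_mul hD0.le]
    congr 1
    ring
  have hlog : Real.log D ≤ 26 * u := by
    have h1 := Real.log_le_self hu0.le
    rw [hu, Real.log_rpow hD0] at h1
    rw [hu]
    linarith
  have hlog0 : 0 ≤ Real.log D := Real.log_nonneg hD1
  have hsqrt : Real.sqrt D = u ^ 13 := by
    rw [hu26, Real.sqrt_eq_rpow]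
    norm_num
  have h1 : 15 + 10 * Real.log D ≤ 275 * u := by linarith
  have h2 : 5 * Real.log D + 7 ≤ 137 * u := by linarith
  have h3 : VV A C D ≤ (A + A ^ 12 * (10 * 12 ^ 12 * (C * 137) ^ 12)) * u ^ 13 := by
    unfold VV
    rw [hsqrt]
    have k4 : (C * (5 * Real.log D + 7)) ^ 12 ≤ (C * 137) ^ 12 * u ^ 12 := by
      rw [← mul_pow]
      apply pow_le_pow_left₀ (by positivity)
      have := mul_le_mul_of_nonneg_left h2 hC
      linarith
    have k5 : u ^ 12 ≤ u ^ 13 := pow_le_pow_right₀ hu1 (by norm_num)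
    have k6 : (C * (5 * Real.log D + 7)) ^ 12 ≤ (C * 137) ^ 12 * u ^ 13 :=
      k4.trans (mul_le_mul_of_nonneg_left k5 (by positivity))
    have k7 : A ^ 12 * (10 * 12 ^ 12 * (C * (5 * Real.log D + 7)) ^ 12) ≤
        A ^ 12 * (10 * 12 ^ 12 * ((C * 137) ^ 12 * u ^ 13)) := by
      apply mul_le_mul_of_nonneg_left _ (by positivity)
      apply mul_le_mul_of_nonneg_left k6 (by positivity)
    calc _ ≤ A * u ^ 13 + A ^ 12 * (10 * 12 ^ 12 * ((C * 137) ^ 12 * u ^ 13)) := by linarith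
      _ = _ := by ring
  have h4 : (15 + 10 * Real.log D) * VV A C D ≤
      (275 * u) * ((A + A ^ 12 * (10 * 12 ^ 12 * (C * 137) ^ 12)) * u ^ 13) :=
    mul_le_mul h1 h3 (VV_nonneg hA hC hD) (by positivity)
  refine h4.trans ?_
  have h5 : u ^ 14 ≤ (D : ℝ) ^ (3 / 5 : ℝ) := by
    rw [hu26]
    apply Real.rpow_le_rpow_of_exponent_le hD1
    norm_num
  calc (275 * u) * ((A + A ^ 12 * (10 * 12 ^ 12 * (C * 137) ^ 12)) * u ^ 13)
      = 275 * (A + A ^ 12 * (10 * 12 ^ 12 * (C * 137) ^ 12)) * u ^ 14 := by ring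
    _ ≤ _ := mul_le_mul_of_nonneg_left h5 (by positivity)

theorem card_filter_pow_le {D : ℕ} (hD : 1 ≤ D) (i₀ I : ℕ) :
    (#{i ∈ Ico i₀ I | 2 ^ i ≤ 1024 * D ^ 5} : ℝ) ≤ 15 + 10 * Real.log D := by
  have hD1 : (1 : ℝ) ≤ D := by exact_mod_cast hD
  have hlogD : 0 ≤ Real.log D := Real.log_nonneg hD1
  have h0 : 0 ≤ 14 + 10 * Real.log D := by linarith
  have h1 : {i ∈ Ico i₀ I | 2 ^ i ≤ 1024 * D ^ 5} ⊆ range (⌊14 + 10 * Real.log D⌋₊ + 1) := by
    intro i hi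
    rw [mem_filter] at hi
    rw [mem_range, Nat.lt_succ_iff]
    apply Nat.le_floor
    have h2 : (2 : ℝ) ^ i ≤ 1024 * (D : ℝ) ^ 5 := by exact_mod_cast hi.2
    have h3 := Real.log_le_log (by positivity) h2
    rw [Real.log_pow, Real.log_mul (by norm_num) (by positivity), Real.log_pow] at h3
    have h4 : Real.log 1024 = 10 * Real.log 2 := by
      have : (1024 : ℝ) = 2 ^ 10 := by norm_num
      rw [this, Real.log_pow]; norm_num
    have h5 := Real.log_two_gt_d9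
    have h6 := Real.log_two_lt_d9
    rw [h4] at h3
    push_cast at h3
    have h7 : (i : ℝ) * (1 / 2) ≤ i * Real.log 2 :=
      mul_le_mul_of_nonneg_left (by linarith) (Nat.cast_nonneg i)
    linarith
  have h2 := card_le_card h1
  rw [card_range] at h2
  have h3 := Nat.floor_le h0
  calc (#{i ∈ Ico i₀ I | 2 ^ i ≤ 1024 * D ^ 5} : ℝ) ≤ ((⌊14 + 10 * Real.log D⌋₊ + 1 : ℕ) : ℝ) := by
        exact_mod_cast h2
    _ = (⌊14 + 10 * Real.log D⌋₊ : ℝ) + 1 := by push_cast; ring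
    _ ≤ _ := by linarith

theorem sum_geom_Ico_le {r : ℝ} (hr0 : 0 ≤ r) (hr1 : r < 1) (i₀ I : ℕ) :
    ∑ i ∈ Ico i₀ I, r ^ i ≤ r ^ i₀ / (1 - r) := by
  rw [Finset.sum_Ico_eq_sum_range]
  have h1 : ∀ i ∈ range (I - i₀), r ^ (i₀ + i) = r ^ i₀ * r ^ i := fun i _ => pow_add _ _ _
  rw [sum_congr rfl h1, ← mul_sum, div_eq_mul_inv]
  apply mul_le_mul_of_nonneg_left _ (pow_nonneg hr0 _)
  exact (Summable.sum_le_tsum _ (fun i _ => pow_nonneg hr0 i)
    (summable_geometric_of_lt_one hr0 hr1)).trans (tsum_geometric_of_lt_one hr0 hr1).le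

open Classical in
/-- the union over scales, for the sums -/
theorem count_T (h : PrimeSeq pr C) {M : ℝ} (hM : 0 ≤ M) {η : ℝ} (hη : 0 < η) :
    ∃ B : ℝ, 0 ≤ B ∧ ∀ g : ℕ → ℝ, (∀ p, |g p| ≤ M) → ∀ D : ℕ, ∀ s : Finset ℤ, SqfSet s D →
      ∀ n₀ : ℕ, 1 ≤ n₀ → ∀ Y : ℝ, 1 ≤ Y →
      (#{d ∈ s | ∃ n, n₀ ≤ n ∧ (n : ℝ) ≤ Real.exp Y ∧ η * n < |TT pr g n d|} : ℝ) ≤
        B * (D / n₀ + (D : ℝ) ^ (3 / 5 : ℝ) + Y) := by
  have hC := h.pos
  set η' : ℝ := η / 2 with hη'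
  have hη'0 : 0 < η' := by positivity
  -- the number of scales per octave
  obtain ⟨K₀, hK₀⟩ := exists_nat_ge (M / η')
  set K : ℕ := K₀ + 1 with hK
  have hK0 : 0 < K := Nat.succ_pos _
  have hKr : (0 : ℝ) < K := by exact_mod_cast hK0
  have hMK : M / K ≤ η' := by
    rw [div_le_iff₀ hKr]
    rw [div_le_iff₀ hη'0] at hK₀
    have : (K : ℝ) = K₀ + 1 := by rw [hK]; push_cast; ring
    rw [this]; nlinarith
  set A : ℝ := (M / η') ^ 2 with hA
  have hA0 : 0 ≤ A := sq_nonneg _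
  obtain ⟨B₁, hB₁0, hB₁⟩ := VV_bound hC.le hA0
  refine ⟨2 * K + 12 * K ^ 2 * A + K * B₁ + 600 * K * C * A, by positivity,
    fun g hg D s hs n₀ hn₀ Y hY => ?_⟩
  have hn₀r : (0 : ℝ) < n₀ := by exact_mod_cast hn₀
  have hDnn : (0 : ℝ) ≤ D := Nat.cast_nonneg D
  have hD35 : 0 ≤ (D : ℝ) ^ (3 / 5 : ℝ) := Real.rpow_nonneg hDnn _
  have hscard := hs.card_le
  have htriv : (#{d ∈ s | ∃ n, n₀ ≤ n ∧ (n : ℝ) ≤ Real.exp Y ∧ η * n < |TT pr g n d|} : ℝ) ≤
      2 * D := by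
    refine le_trans ?_ hscard
    exact_mod_cast card_filter_le _ _
  have hsplit : (2 * K + 12 * K ^ 2 * A + K * B₁ + 600 * K * C * A) *
      (D / n₀ + (D : ℝ) ^ (3 / 5 : ℝ) + Y) =
      2 * K * (D / n₀) + 12 * K ^ 2 * A * (D / n₀) + K * B₁ * (D : ℝ) ^ (3 / 5 : ℝ) +
        600 * K * C * A * Y +
        ((K * B₁ + 600 * K * C * A) * (D / n₀) +
          (2 * K + 12 * K ^ 2 * A + 600 * K * C * A) * (D : ℝ) ^ (3 / 5 : ℝ) +
          (2 * K + 12 * K ^ 2 * A + K * B₁) * Y) := by ring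
  have hrest : 0 ≤ (K * B₁ + 600 * K * C * A) * (D / n₀) +
          (2 * K + 12 * K ^ 2 * A + 600 * K * C * A) * (D : ℝ) ^ (3 / 5 : ℝ) +
          (2 * K + 12 * K ^ 2 * A + K * B₁) * Y := by positivity
  rw [hsplit]
  by_cases hD0 : D = 0
  · subst hD0
    have : (0 : ℝ) ≤ 2 * K * (((0 : ℕ) : ℝ) / n₀) + 12 * K ^ 2 * A * (((0 : ℕ) : ℝ) / n₀) +
      K * B₁ * (((0 : ℕ) : ℝ)) ^ (3 / 5 : ℝ) + 600 * K * C * A * Y := by positivity
    have h2 : (#{d ∈ s | ∃ n, n₀ ≤ n ∧ (n : ℝ) ≤ Real.exp Y ∧ η * n < |TT pr g n d|} : ℝ) ≤ 0 := by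
      simpa using htriv
    linarith
  have hD1 : 1 ≤ D := Nat.one_le_iff_ne_zero.2 hD0
  have hDr : (1 : ℝ) ≤ D := by exact_mod_cast hD1
  by_cases hnK : n₀ < K
  · -- trivial bound
    have h1 : 2 * (D : ℝ) ≤ 2 * K * (D / n₀) := by
      rw [mul_div_assoc', le_div_iff₀ hn₀r]
      have : (n₀ : ℝ) ≤ K := by exact_mod_cast hnK.le
      nlinarith
    have h2 : (0 : ℝ) ≤ 12 * K ^ 2 * A * (D / n₀) + K * B₁ * (D : ℝ) ^ (3 / 5 : ℝ) +
        600 * K * C * A * Y := by positivity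
    linarith
  push Not at hnK
  -- the first scale
  obtain ⟨i₀, hi₀1, hi₀2⟩ : ∃ i₀ : ℕ, K * 2 ^ i₀ ≤ n₀ ∧ n₀ < 2 * K * 2 ^ i₀ := by
    have h0 : n₀ / K ≠ 0 := by
      have := Nat.div_pos hnK hK0
      omega
    refine ⟨Nat.log 2 (n₀ / K), ?_, ?_⟩
    · have h2 : 2 ^ (Nat.log 2 (n₀ / K)) ≤ n₀ / K := Nat.pow_log_le_self 2 h0
      rw [Nat.le_div_iff_mul_le hK0] at h2
      rw [mul_comm]; exact h2
    · have h3 : n₀ / K < 2 ^ (Nat.log 2 (n₀ / K) + 1) := Nat.lt_pow_succ_log_self (by norm_num) _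
      rw [Nat.div_lt_iff_lt_mul hK0] at h3
      calc n₀ < 2 ^ (Nat.log 2 (n₀ / K) + 1) * K := h3
        _ = _ := by ring
  have hpow : (1 / 2 : ℝ) ^ i₀ ≤ 2 * K / n₀ := by
    have h1 : (n₀ : ℝ) ≤ 2 * K * 2 ^ i₀ := by exact_mod_cast hi₀2.le
    rw [le_div_iff₀ hn₀r, one_div_pow, one_div]
    rw [inv_mul_le_iff₀ (by positivity)]
    linarith
  set I : ℕ := ⌊2 * Y⌋₊ + 1 with hI
  have hIr : (I : ℝ) ≤ 2 * Y + 1 := by
    have := Nat.floor_le (by positivity : 0 ≤ 2 * Y)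
    rw [hI]; push_cast; linarith
  -- reduction to scales
  have hsub : {d ∈ s | ∃ n, n₀ ≤ n ∧ (n : ℝ) ≤ Real.exp Y ∧ η * n < |TT pr g n d|} ⊆
      (Ico i₀ I).biUnion fun i => (Ico K (2 * K)).biUnion fun m =>
        {d ∈ s | η' * (m * 2 ^ i : ℕ) < |TT pr g (m * 2 ^ i) d|} := by
    intro d hd
    rw [mem_filter] at hd
    obtain ⟨hds, n, hn, hn2, hn3⟩ := hd
    obtain ⟨i, m, hi, hm1, hm2, hm3, hm4⟩ :=
      exists_scale hK0 i₀ n (hi₀1.trans hn)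
    rw [mem_biUnion]
    refine ⟨i, ?_, ?_⟩
    · rw [mem_Ico]
      refine ⟨hi, ?_⟩
      rw [hI, Nat.lt_succ_iff]
      apply Nat.le_floor
      have h1 : (2 : ℝ) ^ i ≤ Real.exp Y := by
        refine le_trans ?_ hn2
        have : 2 ^ i ≤ n := by
          calc 2 ^ i = 1 * 2 ^ i := (one_mul _).symm
            _ ≤ m * 2 ^ i := Nat.mul_le_mul_right _ (by omega)
            _ ≤ n := hm3
        exact_mod_cast this
      have h2 := Real.log_le_log (by positivity) h1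
      rw [Real.log_pow, Real.log_exp] at h2
      have h5 := Real.log_two_gt_d9
      have h7 : (i : ℝ) * (1 / 2) ≤ i * Real.log 2 :=
        mul_le_mul_of_nonneg_left (by linarith) (Nat.cast_nonneg i)
      linarith
    · rw [mem_biUnion]
      refine ⟨m, mem_Ico.2 ⟨hm1, hm2⟩, ?_⟩
      rw [mem_filter]
      refine ⟨hds, ?_⟩
      have h1 := TT_sub_le (pr := pr) hM hg hm3 d
      have h2 : ((n : ℝ) - (m * 2 ^ i : ℕ)) ≤ 2 ^ i := by
        have : (n : ℝ) < ((m * 2 ^ i + 2 ^ i : ℕ) : ℝ) := by exact_mod_cast hm4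
        push_cast at this ⊢
        linarith
      have h3 : M * ((n : ℝ) - (m * 2 ^ i : ℕ)) ≤ η' * n := by
        have h4 : (K : ℝ) * 2 ^ i ≤ n := by
          have : K * 2 ^ i ≤ n := (Nat.mul_le_mul_right _ hm1).trans hm3
          exact_mod_cast this
        calc M * ((n : ℝ) - (m * 2 ^ i : ℕ)) ≤ M * 2 ^ i := mul_le_mul_of_nonneg_left h2 hM
          _ = (M / K) * (K * 2 ^ i) := by field_simp
          _ ≤ η' * n := mul_le_mul hMK h4 (by positivity) hη'0.le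
      have h4 : ((m * 2 ^ i : ℕ) : ℝ) ≤ n := by exact_mod_cast hm3
      have h5 : η' * (m * 2 ^ i : ℕ) ≤ η' * n := mul_le_mul_of_nonneg_left h4 hη'0.le
      have h6 : η * n = η' * n + η' * n := by rw [hη']; ring
      linarith
  have hcard2 : (#((Ico i₀ I).biUnion fun i => (Ico K (2 * K)).biUnion fun m =>
      {d ∈ s | η' * (m * 2 ^ i : ℕ) < |TT pr g (m * 2 ^ i) d|}) : ℝ) ≤
      ∑ i ∈ Ico i₀ I, ∑ m ∈ Ico K (2 * K),
        (#{d ∈ s | η' * (m * 2 ^ i : ℕ) < |TT pr g (m * 2 ^ i) d|} : ℝ) := by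
    have h1 : #((Ico i₀ I).biUnion fun i => (Ico K (2 * K)).biUnion fun m =>
      {d ∈ s | η' * (m * 2 ^ i : ℕ) < |TT pr g (m * 2 ^ i) d|}) ≤
      ∑ i ∈ Ico i₀ I, ∑ m ∈ Ico K (2 * K),
        #{d ∈ s | η' * (m * 2 ^ i : ℕ) < |TT pr g (m * 2 ^ i) d|} :=
      card_biUnion_le.trans (sum_le_sum fun i _ => card_biUnion_le)
    exact_mod_cast h1
  have hterm : ∀ i ∈ Ico i₀ I, ∑ m ∈ Ico K (2 * K),
      (#{d ∈ s | η' * (m * 2 ^ i : ℕ) < |TT pr g (m * 2 ^ i) d|} : ℝ) ≤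
      K * (A * (3 * D) * (1 / 2) ^ i + (if 2 ^ i ≤ 1024 * D ^ 5 then VV A C D else 0) +
        A * (200 * C)) := by
    intro i _
    calc _ ≤ ∑ m ∈ Ico K (2 * K), (A * (3 * D) * (1 / 2) ^ i +
        (if 2 ^ i ≤ 1024 * D ^ 5 then VV A C D else 0) + A * (200 * C)) := by
          refine sum_le_sum fun m hm => ?_
          rw [mem_Ico] at hm
          exact bad_T h hs hD1 hM hg hη'0 i m (by omega)
      _ = _ := by
          rw [sum_const, Nat.card_Ico, nsmul_eq_mul]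
          congr 2
          omega
  have hmain := ((Nat.cast_le.2 (card_le_card hsub)).trans hcard2).trans (sum_le_sum hterm)
  rw [← mul_sum, sum_add_distrib, sum_add_distrib, ← mul_sum, ← sum_filter, sum_const, sum_const,
    nsmul_eq_mul, nsmul_eq_mul, Nat.card_Ico] at hmain
  have g1 := sum_geom_Ico_le (r := 1 / 2) (by norm_num) (by norm_num) i₀ I
  have g2 := card_filter_pow_le hD1 i₀ I
  have g3 : ((I - i₀ : ℕ) : ℝ) ≤ 2 * Y + 1 := by
    refine le_trans ?_ hIr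
    exact_mod_cast Nat.sub_le I i₀
  have hV := VV_nonneg hA0 hC.le hD1
  have g4 := hB₁ D hD1
  have g5 : K * (A * (3 * D) * ∑ i ∈ Ico i₀ I, (1 / 2 : ℝ) ^ i +
      (#{i ∈ Ico i₀ I | 2 ^ i ≤ 1024 * D ^ 5} : ℝ) * VV A C D +
      ((I - i₀ : ℕ) : ℝ) * (A * (200 * C))) ≤
      K * (A * (3 * D) * ((2 * K / n₀) / (1 - 1 / 2)) +
        B₁ * (D : ℝ) ^ (3 / 5 : ℝ) + (2 * Y + 1) * (A * (200 * C))) := by
    have g6 : ∑ i ∈ Ico i₀ I, (1 / 2 : ℝ) ^ i ≤ (2 * K / n₀) / (1 - 1 / 2) :=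
      g1.trans (div_le_div_of_nonneg_right hpow (by norm_num))
    have g7 : (#{i ∈ Ico i₀ I | 2 ^ i ≤ 1024 * D ^ 5} : ℝ) * VV A C D ≤
        B₁ * (D : ℝ) ^ (3 / 5 : ℝ) := (mul_le_mul_of_nonneg_right g2 hV).trans g4
    gcongr
  have g6 : K * (A * (3 * D) * ((2 * K / n₀) / (1 - 1 / 2)) +
        B₁ * (D : ℝ) ^ (3 / 5 : ℝ) + (2 * Y + 1) * (A * (200 * C))) =
      12 * K ^ 2 * A * (D / n₀) + K * B₁ * (D : ℝ) ^ (3 / 5 : ℝ) +
        400 * K * C * A * Y + 200 * K * C * A := by ring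
  have g7 : 200 * K * C * A ≤ 200 * K * C * A * Y := by
    have : 0 ≤ 200 * K * C * A := by positivity
    nlinarith
  have g8 : (0 : ℝ) ≤ 2 * K * (D / n₀) := by positivity
  have g9 := hmain.trans g5
  rw [g6] at g9
  linarith

open Classical in
/-- the union over scales, for the ramified primes -/
theorem count_W (h : PrimeSeq pr C) {η : ℝ} (hη : 0 < η) :
    ∃ B : ℝ, 0 ≤ B ∧ ∀ D : ℕ, ∀ s : Finset ℤ, SqfSet s D → ∀ n₀ : ℕ, 1 ≤ n₀ → ∀ N : ℕ,
      (#{d ∈ s | ∃ n, n₀ ≤ n ∧ n ≤ N ∧ η * n < (WW pr n d : ℝ)} : ℝ) ≤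
        B * (D / (n₀ : ℝ) ^ (3 / 4 : ℝ)) := by
  set η' : ℝ := η / 2 with hη'
  have hη'0 : 0 < η' := by positivity
  obtain ⟨K₀, hK₀⟩ := exists_nat_ge (1 / η')
  set K : ℕ := K₀ + 1 with hK
  have hK0 : 0 < K := Nat.succ_pos _
  have hKr : (0 : ℝ) < K := by exact_mod_cast hK0
  have hMK : 1 / K ≤ η' := by
    rw [div_le_iff₀ hKr]
    rw [div_le_iff₀ hη'0] at hK₀
    have : (K : ℝ) = K₀ + 1 := by rw [hK]; push_cast; ring
    rw [this]; nlinarith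
  set ρ : ℝ := (1 / 2 : ℝ) ^ (3 / 4 : ℝ) with hρ
  have hρ0 : 0 < ρ := Real.rpow_pos_of_pos (by norm_num) _
  have hρ1 : ρ < 1 := Real.rpow_lt_one (by norm_num) (by norm_num) (by norm_num)
  have hρpow : ∀ i : ℕ, ρ ^ i = ((1 / 2 : ℝ) ^ i) ^ (3 / 4 : ℝ) := by
    intro i
    rw [hρ, ← Real.rpow_natCast, ← Real.rpow_mul (by norm_num), ← Real.rpow_natCast,
      ← Real.rpow_mul (by norm_num), mul_comm]
  set L : ℝ := (2 * K : ℝ) ^ (3 / 4 : ℝ) with hL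
  have hL0 : 0 < L := Real.rpow_pos_of_pos (by positivity) _
  have h1ρ : 0 < 1 - ρ := by linarith
  refine ⟨2 * L + K * (8 / η') * (L / (1 - ρ)), by positivity,
    fun D s hs n₀ hn₀ N => ?_⟩
  have hn₀r : (0 : ℝ) < n₀ := by exact_mod_cast hn₀
  have hn34 : 0 < (n₀ : ℝ) ^ (3 / 4 : ℝ) := Real.rpow_pos_of_pos hn₀r _
  have hscard := hs.card_le
  by_cases hnK : n₀ < K
  · have h1 : (#{d ∈ s | ∃ n, n₀ ≤ n ∧ n ≤ N ∧ η * n < (WW pr n d : ℝ)} : ℝ) ≤ 2 * D := by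
      refine le_trans ?_ hscard
      exact_mod_cast card_filter_le _ _
    have h2 : (n₀ : ℝ) ^ (3 / 4 : ℝ) ≤ L := by
      apply Real.rpow_le_rpow hn₀r.le _ (by norm_num)
      have : (n₀ : ℝ) ≤ K := by exact_mod_cast hnK.le
      linarith
    have h3 : 2 * (D : ℝ) ≤ 2 * L * (D / (n₀ : ℝ) ^ (3 / 4 : ℝ)) := by
      rw [mul_div_assoc', le_div_iff₀ hn34]
      have : (0 : ℝ) ≤ D := Nat.cast_nonneg D
      nlinarith
    have h4 : 0 ≤ K * (8 / η') * (L / (1 - ρ)) * (D / (n₀ : ℝ) ^ (3 / 4 : ℝ)) := by positivity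
    rw [add_mul]
    linarith
  push Not at hnK
  obtain ⟨i₀, hi₀1, hi₀2⟩ : ∃ i₀ : ℕ, K * 2 ^ i₀ ≤ n₀ ∧ n₀ < 2 * K * 2 ^ i₀ := by
    have h0 : n₀ / K ≠ 0 := by
      have := Nat.div_pos hnK hK0
      omega
    refine ⟨Nat.log 2 (n₀ / K), ?_, ?_⟩
    · have h2 : 2 ^ (Nat.log 2 (n₀ / K)) ≤ n₀ / K := Nat.pow_log_le_self 2 h0
      rw [Nat.le_div_iff_mul_le hK0] at h2
      rw [mul_comm]; exact h2
    · have h3 : n₀ / K < 2 ^ (Nat.log 2 (n₀ / K) + 1) := Nat.lt_pow_succ_log_self (by norm_num) _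
      rw [Nat.div_lt_iff_lt_mul hK0] at h3
      calc n₀ < 2 ^ (Nat.log 2 (n₀ / K) + 1) * K := h3
        _ = _ := by ring
  have hρi : ρ ^ i₀ ≤ L / (n₀ : ℝ) ^ (3 / 4 : ℝ) := by
    rw [hρpow, hL, ← Real.div_rpow (by positivity) hn₀r.le]
    apply Real.rpow_le_rpow (by positivity) _ (by norm_num)
    have h1 : (n₀ : ℝ) ≤ 2 * K * 2 ^ i₀ := by exact_mod_cast hi₀2.le
    rw [le_div_iff₀ hn₀r, one_div_pow, one_div]
    rw [inv_mul_le_iff₀ (by positivity)]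
    linarith
  have hsub : {d ∈ s | ∃ n, n₀ ≤ n ∧ n ≤ N ∧ η * n < (WW pr n d : ℝ)} ⊆
      (Ico i₀ (N + 1)).biUnion fun i => (Ico K (2 * K)).biUnion fun m =>
        {d ∈ s | η' * (m * 2 ^ i : ℕ) < (WW pr (m * 2 ^ i) d : ℝ)} := by
    intro d hd
    rw [mem_filter] at hd
    obtain ⟨hds, n, hn, hn2, hn3⟩ := hd
    obtain ⟨i, m, hi, hm1, hm2, hm3, hm4⟩ := exists_scale hK0 i₀ n (hi₀1.trans hn)
    rw [mem_biUnion]
    refine ⟨i, ?_, ?_⟩
    · rw [mem_Ico]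
      refine ⟨hi, ?_⟩
      have h1 : i < 2 ^ i := Nat.lt_two_pow_self
      have h2 : 2 ^ i ≤ n := by
        calc 2 ^ i = 1 * 2 ^ i := (one_mul _).symm
          _ ≤ m * 2 ^ i := Nat.mul_le_mul_right _ (by omega)
          _ ≤ n := hm3
      omega
    · rw [mem_biUnion]
      refine ⟨m, mem_Ico.2 ⟨hm1, hm2⟩, ?_⟩
      rw [mem_filter]
      refine ⟨hds, ?_⟩
      have h1 := WW_sub_le (pr := pr) hm3 d
      have h2 : ((n : ℝ) - (m * 2 ^ i : ℕ)) ≤ 2 ^ i := by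
        have : (n : ℝ) < ((m * 2 ^ i + 2 ^ i : ℕ) : ℝ) := by exact_mod_cast hm4
        push_cast at this ⊢
        linarith
      have h3 : ((n : ℝ) - (m * 2 ^ i : ℕ)) ≤ η' * n := by
        have h4 : (K : ℝ) * 2 ^ i ≤ n := by
          have : K * 2 ^ i ≤ n := (Nat.mul_le_mul_right _ hm1).trans hm3
          exact_mod_cast this
        calc ((n : ℝ) - (m * 2 ^ i : ℕ)) ≤ 2 ^ i := h2
          _ = (1 / K) * (K * 2 ^ i) := by field_simp
          _ ≤ η' * n := mul_le_mul hMK h4 (by positivity) hη'0.le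
      have h4 : ((m * 2 ^ i : ℕ) : ℝ) ≤ n := by exact_mod_cast hm3
      have h5 : η' * (m * 2 ^ i : ℕ) ≤ η' * n := mul_le_mul_of_nonneg_left h4 hη'0.le
      have h6 : η * n = η' * n + η' * n := by rw [hη']; ring
      linarith
  have hcard2 : (#((Ico i₀ (N + 1)).biUnion fun i => (Ico K (2 * K)).biUnion fun m =>
      {d ∈ s | η' * (m * 2 ^ i : ℕ) < (WW pr (m * 2 ^ i) d : ℝ)}) : ℝ) ≤
      ∑ i ∈ Ico i₀ (N + 1), ∑ m ∈ Ico K (2 * K),
        (#{d ∈ s | η' * (m * 2 ^ i : ℕ) < (WW pr (m * 2 ^ i) d : ℝ)} : ℝ) := by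
    have h1 : #((Ico i₀ (N + 1)).biUnion fun i => (Ico K (2 * K)).biUnion fun m =>
      {d ∈ s | η' * (m * 2 ^ i : ℕ) < (WW pr (m * 2 ^ i) d : ℝ)}) ≤
      ∑ i ∈ Ico i₀ (N + 1), ∑ m ∈ Ico K (2 * K),
        #{d ∈ s | η' * (m * 2 ^ i : ℕ) < (WW pr (m * 2 ^ i) d : ℝ)} :=
      card_biUnion_le.trans (sum_le_sum fun i _ => card_biUnion_le)
    exact_mod_cast h1
  refine ((Nat.cast_le.2 (card_le_card hsub)).trans hcard2).trans ?_
  have hterm : ∀ i ∈ Ico i₀ (N + 1), ∑ m ∈ Ico K (2 * K),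
      (#{d ∈ s | η' * (m * 2 ^ i : ℕ) < (WW pr (m * 2 ^ i) d : ℝ)} : ℝ) ≤
      K * (2 * D / η' * (4 * ρ ^ i)) := by
    intro i _
    calc _ ≤ ∑ m ∈ Ico K (2 * K), (2 * D / η' * (4 * ρ ^ i)) := by
          refine sum_le_sum fun m hm => ?_
          rw [mem_Ico] at hm
          have hN : 0 < m * 2 ^ i := by
            have : 0 < m := by omega
            positivity
          obtain ⟨n, hn⟩ := Nat.exists_eq_succ_of_ne_zero hN.ne'
          have hni : 2 ^ i ≤ n + 1 := by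
            calc 2 ^ i = 1 * 2 ^ i := (one_mul _).symm
              _ ≤ m * 2 ^ i := Nat.mul_le_mul_right _ (by omega)
              _ = n + 1 := hn
          rw [hn]
          refine (bad_W h hs hη'0 n).trans ?_
          apply mul_le_mul_of_nonneg_left _ (by positivity)
          rw [hρpow, div_eq_mul_inv, ← Real.inv_rpow (by positivity)]
          apply mul_le_mul_of_nonneg_left _ (by norm_num)
          apply Real.rpow_le_rpow (by positivity) _ (by norm_num)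
          rw [one_div_pow, one_div]
          apply inv_anti₀ (by positivity)
          exact_mod_cast hni
      _ = _ := by
          rw [sum_const, Nat.card_Ico, nsmul_eq_mul]
          congr 2
          omega
  refine (sum_le_sum hterm).trans ?_
  rw [← mul_sum, ← mul_sum, ← mul_sum]
  have g1 := (sum_geom_Ico_le hρ0.le hρ1 i₀ (N + 1)).trans
    (div_le_div_of_nonneg_right hρi h1ρ.le)
  have g2 : 0 ≤ 2 * L * (D / (n₀ : ℝ) ^ (3 / 4 : ℝ)) := by positivity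
  calc K * (2 * D / η' * (4 * ∑ i ∈ Ico i₀ (N + 1), ρ ^ i))
      ≤ K * (2 * D / η' * (4 * (L / (n₀ : ℝ) ^ (3 / 4 : ℝ) / (1 - ρ)))) := by gcongr
    _ = (K * (8 / η') * (L / (1 - ρ))) * (D / (n₀ : ℝ) ^ (3 / 4 : ℝ)) := by
        field_simp
        ring
    _ ≤ _ := by
        rw [add_mul]
        linarith

end Pool.Agent.Work.MP_6dc561_nt.AA
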