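import Pool.Agent.Work.MP_6dc561_nt.AA.QDefs
import Pool.Agent.Work.MP_6dc561_nt.AA.Scale
import Pool.Agent.Work.MP_6dc561_nt.Curve

/-!
# Almost all quadratic twists
-/

set_option autoImplicit false

open Finset Polynomial

namespace Pool.Agent.Work.MP_6dc561_nt.AA

theorem pi_lower (N : ℕ) (hN : 200 ≤ N) : (N : ℝ) / (2 * Real.log N) ≤ Nat.primeCounting N := by
  have h := Chebyshev.pi_ge N
  have hN' : (200 : ℝ) ≤ N := by exact_mod_cast hN
  have hlog : 0 < Real.log N := Real.log_pos (by linarith)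
  refine le_trans ?_ h
  rw [div_le_div_iff₀ (by positivity) hlog]
  have h1 : Real.log (N + 1) ≤ 2 * Real.sqrt (N + 1) - 2 := by
    have h2 : Real.log (Real.sqrt (N + 1)) ≤ Real.sqrt (N + 1) - 1 :=
      Real.log_le_sub_one_of_pos (Real.sqrt_pos.mpr (by linarith))
    rw [Real.log_sqrt (by linarith)] at h2
    linarith
  have h2 : Real.sqrt (N + 1) ≤ 0.09 * N + 1 := by
    rw [Real.sqrt_le_left (by positivity)]
    nlinarith
  have h3 := Real.log_two_gt_d9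
  have h4 : (N : ℝ) / 2 ≤ N * Real.log 2 - Real.log (N + 1) := by nlinarith
  nlinarith

theorem two_ne_zero_zmod {p : ℕ} [Fact p.Prime] (hp2 : p ≠ 2) : (2 : ZMod p) ≠ 0 := by
  intro h
  have h1 : ((2 : ℕ) : ZMod p) = 0 := by exact_mod_cast h
  rw [ZMod.natCast_eq_zero_iff] at h1
  exact hp2 ((Nat.prime_dvd_prime_iff_eq Fact.out Nat.prime_two).1 h1)

theorem chi_eq_legendre {p : ℕ} [Fact p.Prime] (hp2 : p ≠ 2) (d : ℤ) :
    chi d p = (legendreSym p d : ℝ) := by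
  unfold chi
  rw [if_pos ((Fact.out : p.Prime).odd_of_ne_two hp2), ← jacobiSym.legendreSym.to_jacobiSym]

theorem aQ_twist (f : ℤ[X]) {d : ℤ} {p : ℕ} (hp : p.Prime) (hp2 : p ≠ 2) (hd : ¬ (p : ℤ) ∣ d) :
    aQ f d p = chi d p * aQ f 1 p ∧ (chi d p = 1 ∨ chi d p = -1) := by
  have : Fact p.Prime := ⟨hp⟩
  have hd0 : (d : ZMod p) ≠ 0 := by
    rwa [Ne, ZMod.intCast_zmod_eq_zero_iff_dvd]
  have h2 := two_ne_zero_zmod hp2
  rw [chi_eq_legendre hp2]
  unfold aQ ptCount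
  rw [dif_pos hp, dif_pos hp, Int.cast_one]
  by_cases hsq : IsSquare (d : ZMod p)
  · have h1 : legendreSym p d = 1 := (legendreSym.eq_one_iff p hd0).2 hsq
    rw [h1, numPoints_square _ hd0 hsq]
    simp
  · have h1 : legendreSym p d = -1 := (legendreSym.eq_neg_one_iff p).2 hsq
    have h3 := numPoints_nonsquare h2 _ hd0 hsq (f.map (Int.castRingHom (ZMod p)))
    rw [Nat.card_zmod] at h3
    rw [h1]
    have h4 : (numPoints (ZMod p) 1 (d : ZMod p) (f.map (Int.castRingHom (ZMod p))) : ℝ) +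
        numPoints (ZMod p) 1 1 (f.map (Int.castRingHom (ZMod p))) = 2 * (p + 1) := by
      exact_mod_cast h3
    push_cast
    refine ⟨by linarith, Or.inr rfl⟩

theorem bQ_twist (f : ℤ[X]) {d : ℤ} {p : ℕ} (hp : p.Prime) (hp2 : p ≠ 2) (hd : ¬ (p : ℤ) ∣ d) :
    bQ f d p = bQ f 1 p := by
  have h1 := aQ_twist f hp hp2 hd
  have hsq : aQ f d p ^ 2 = aQ f 1 p ^ 2 := by
    rw [h1.1, mul_pow]
    rcases h1.2 with h | h <;> rw [h] <;> norm_num
  unfold bQ
  rw [hsq]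
  have : Fact p.Prime := ⟨hp⟩
  have hd0 : (d : ZMod p) ≠ 0 := by
    rwa [Ne, ZMod.intCast_zmod_eq_zero_iff_dvd]
  have h2 := two_ne_zero_zmod hp2
  have h3 : ptCount f d p 2 = ptCount f 1 p 2 := by
    unfold ptCount
    rw [dif_pos hp, dif_pos hp, Int.cast_one, numPoints_two h2 _ hd0]
  rw [h3]

theorem goodQ_iff (f : ℤ[X]) (d : ℤ) (p : ℕ) : p ∈ goodQ f d ↔ p ∈ goodQ f 1 ∧ ¬ (p : ℤ) ∣ d := by
  unfold goodQ
  simp only [Set.mem_ofPred_eq]
  constructor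
  · rintro ⟨h1, h2, h3, h4, h5⟩
    refine ⟨⟨h1, h2, ?_, h4, h5⟩, h3⟩
    intro h
    have := Int.eq_one_of_dvd_one (Int.natCast_nonneg p) h
    exact h1.one_lt.ne' (by exact_mod_cast this)
  · rintro ⟨⟨h1, h2, _, h4, h5⟩, h3⟩
    exact ⟨h1, h2, h3, h4, h5⟩

/-- finitely many bad primes -/
theorem goodQ_cofinite (f : ℤ[X]) (hdeg : f.natDegree = 5 ∨ f.natDegree = 6)
    (hsep : (f.map (Int.castRingHom ℚ)).Separable) :
    ∃ B : ℕ, ∀ p : ℕ, p.Prime → B < p → p ∈ goodQ f 1 := by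
  classical
  obtain ⟨r, hr0, u, w, huw⟩ : ∃ r : ℤ, r ≠ 0 ∧ ∃ u w : ℤ[X],
      u * f + w * derivative f = C r := by
    obtain ⟨u, w, huw⟩ := hsep
    obtain ⟨b₁, hm₁, hb₁⟩ := IsLocalization.integerNormalization_spec (nonZeroDivisors ℤ) u
    obtain ⟨b₂, hm₂, hb₂⟩ := IsLocalization.integerNormalization_spec (nonZeroDivisors ℤ) w
    refine ⟨b₁ * b₂, mul_ne_zero (nonZeroDivisors.ne_zero hm₁) (nonZeroDivisors.ne_zero hm₂),
      C b₂ * IsLocalization.integerNormalization (nonZeroDivisors ℤ) u,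
      C b₁ * IsLocalization.integerNormalization (nonZeroDivisors ℤ) w, ?_⟩
    have hinj : Function.Injective (algebraMap ℤ ℚ) := IsFractionRing.injective ℤ ℚ
    apply map_injective (algebraMap ℤ ℚ) hinj
    have e1 : (IsLocalization.integerNormalization (nonZeroDivisors ℤ) u).map
        (algebraMap ℤ ℚ) = C (algebraMap ℤ ℚ b₁) * u := by
      rw [hb₁]
      ext n
      rw [coeff_C_mul, ← Algebra.smul_def]
      rfl
    have e2 : (IsLocalization.integerNormalization (nonZeroDivisors ℤ) w).map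
        (algebraMap ℤ ℚ) = C (algebraMap ℤ ℚ b₂) * w := by
      rw [hb₂]
      ext n
      rw [coeff_C_mul, ← Algebra.smul_def]
      rfl
    rw [derivative_map] at huw
    change _ * f.map (algebraMap ℤ ℚ) + _ * (derivative f).map (algebraMap ℤ ℚ) = 1 at huw
    rw [Polynomial.map_add, Polynomial.map_mul, Polynomial.map_mul, Polynomial.map_mul,
      Polynomial.map_mul, e1, e2, map_C, map_C, map_C, map_mul, C_mul]
    linear_combination (C (algebraMap ℤ ℚ b₁) * C (algebraMap ℤ ℚ b₂)) * huw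
  have hf0 : f ≠ 0 := by
    rintro rfl
    rcases hdeg with h | h <;> simp at h
  have hlc : f.leadingCoeff ≠ 0 := leadingCoeff_ne_zero.mpr hf0
  refine ⟨2 + r.natAbs + f.leadingCoeff.natAbs, fun p hp hBp => ?_⟩
  have : Fact p.Prime := ⟨hp⟩
  have hcast : ∀ a : ℤ, a ≠ 0 → a.natAbs < p → (a : ZMod p) ≠ 0 := by
    intro a ha hap h
    rw [ZMod.intCast_zmod_eq_zero_iff_dvd] at h
    have h1 : p ∣ a.natAbs := Int.natCast_dvd.1 h
    have := Nat.le_of_dvd (Int.natAbs_pos.2 ha) h1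
    omega
  have hr' : (r : ZMod p) ≠ 0 := hcast r hr0 (by omega)
  have hl' : (f.leadingCoeff : ZMod p) ≠ 0 := hcast _ hlc (by omega)
  refine ⟨hp, by omega, ?_, ?_, ?_⟩
  · intro h
    have := Int.eq_one_of_dvd_one (Int.natCast_nonneg p) h
    exact hp.one_lt.ne' (by exact_mod_cast this)
  · have h1 := congrArg (Polynomial.map (Int.castRingHom (ZMod p))) huw
    rw [Polynomial.map_add, Polynomial.map_mul, Polynomial.map_mul, map_C] at h1
    have h4 : (C ((r : ZMod p))⁻¹ * C ((Int.castRingHom (ZMod p)) r) : (ZMod p)[X]) = 1 := by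
      rw [← C_mul, eq_intCast, inv_mul_cancel₀ hr', C_1]
    have h3 : (C ((r : ZMod p))⁻¹ * u.map (Int.castRingHom (ZMod p))) *
        f.map (Int.castRingHom (ZMod p)) +
        (C ((r : ZMod p))⁻¹ * w.map (Int.castRingHom (ZMod p))) *
        (derivative f).map (Int.castRingHom (ZMod p)) = 1 := by
      linear_combination (C ((r : ZMod p))⁻¹) * h1 + h4
    rw [← derivative_map] at h3
    exact ⟨_, _, h3⟩
  · have : (f.map (Int.castRingHom (ZMod p))).natDegree = f.natDegree := by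
      apply natDegree_map_of_leadingCoeff_ne_zero
      rwa [eq_intCast]
    rw [this]
    omega

/-- the good primes, enumerated -/
noncomputable def gpr (f : ℤ[X]) : ℕ → ℕ := Nat.nth (· ∈ goodQ f 1)

theorem goodQ_infinite (f : ℤ[X]) (hdeg : f.natDegree = 5 ∨ f.natDegree = 6)
    (hsep : (f.map (Int.castRingHom ℚ)).Separable) : (Set.ofPred (· ∈ goodQ f 1)).Infinite := by
  obtain ⟨B, hB⟩ := goodQ_cofinite f hdeg hsep
  rw [Set.infinite_iff_exists_gt]
  intro a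
  obtain ⟨p, hp1, hp2⟩ := Nat.exists_infinite_primes (max a B + 1)
  exact ⟨p, hB p hp2 (by omega), by omega⟩

open Classical in
theorem card_goodUpToQ (f : ℤ[X]) (x : ℕ) :
    (goodUpToQ f 1 x).card = Nat.count (· ∈ goodQ f 1) (x + 1) := by
  rw [Nat.count_eq_card_filter_range]
  congr 1
  ext p
  unfold goodUpToQ
  rw [mem_filter, mem_filter, Finset.mem_Icc, mem_range]
  constructor
  · rintro ⟨⟨_, h2⟩, h3⟩
    exact ⟨by omega, h3⟩
  · rintro ⟨h1, h3⟩
    exact ⟨⟨h3.1.one_lt.le, by omega⟩, h3⟩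

open Classical in
/-- sums over the good primes up to `x` -/
theorem sum_goodUpToQ (f : ℤ[X]) (hinf : (Set.ofPred (· ∈ goodQ f 1)).Infinite) (x : ℕ) (F : ℕ → ℝ) :
    ∑ p ∈ goodUpToQ f 1 x, F p = ∑ i ∈ range (goodUpToQ f 1 x).card, F (gpr f i) := by
  symm
  refine sum_bij (fun i _ => gpr f i) ?_ ?_ ?_ ?_
  · intro i hi
    rw [mem_range, card_goodUpToQ] at hi
    have h1 : gpr f i ∈ goodQ f 1 := Nat.nth_mem_of_infinite hinf i
    have h2 : gpr f i < x + 1 := Nat.nth_lt_of_lt_count hi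
    unfold goodUpToQ
    rw [mem_filter, Finset.mem_Icc]
    exact ⟨⟨h1.1.one_lt.le, by omega⟩, h1⟩
  · intro a _ b _ hab
    exact Nat.nth_injective hinf hab
  · intro p hp
    unfold goodUpToQ at hp
    rw [mem_filter, Finset.mem_Icc] at hp
    refine ⟨Nat.count (· ∈ goodQ f 1) p, ?_, Nat.nth_count hp.2⟩
    rw [mem_range, card_goodUpToQ]
    exact Nat.count_strict_mono hp.2 (by omega)
  · intro i _; rfl

/-- Chebyshev's bound for the good primes -/
theorem primeSeq_gpr (f : ℤ[X]) (hdeg : f.natDegree = 5 ∨ f.natDegree = 6)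
    (hsep : (f.map (Int.castRingHom ℚ)).Separable) : ∃ C : ℝ, PrimeSeq (gpr f) C := by
  classical
  have hinf := goodQ_infinite f hdeg hsep
  obtain ⟨B, hB⟩ := goodQ_cofinite f hdeg hsep
  refine ⟨200 * ((B : ℝ) + 2), ?_, ?_, ?_, by positivity, ?_⟩
  · exact Nat.nth_strictMono hinf
  · intro i
    have h1 : gpr f i ∈ goodQ f 1 := Nat.nth_mem_of_infinite hinf i
    exact h1.1
  · intro i
    have h1 : gpr f i ∈ goodQ f 1 := Nat.nth_mem_of_infinite hinf i
    exact h1.2.1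
  · intro n
    set q := gpr f n with hq
    have h1 : q ∈ goodQ f 1 := Nat.nth_mem_of_infinite hinf n
    have hq3 : 3 ≤ q := by
      have := h1.1.two_le
      have := h1.2.1
      omega
    have hlog : 1 ≤ Real.log q := by
      rw [Real.le_log_iff_exp_le (by positivity)]
      have h3 : (3 : ℝ) ≤ q := by exact_mod_cast hq3
      have := Real.exp_one_lt_d9
      linarith
    have hn0 : (0 : ℝ) ≤ n := Nat.cast_nonneg n
    have hB0 : (0 : ℝ) ≤ B := Nat.cast_nonneg B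
    by_cases hq200 : q < 200
    · have h3 : (q : ℝ) ≤ 200 := by exact_mod_cast hq200.le
      have h4 : (1 : ℝ) ≤ ((B : ℝ) + 2) * ((n : ℝ) + 1) := by nlinarith
      calc (q : ℝ) ≤ 200 * 1 * 1 := by linarith
        _ ≤ 200 * (((B : ℝ) + 2) * ((n : ℝ) + 1)) * Real.log q := by gcongr
        _ = _ := by ring
    · push Not at hq200
      have h3 := pi_lower q hq200
      -- the number of primes up to `q` is at most `n + 1 + B + 1`
      have h4 : Nat.primeCounting q ≤ (n + 1) + (B + 1) := by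
        rw [Nat.primeCounting, Nat.primeCounting', Nat.count_eq_card_filter_range]
        have h5 : {p ∈ range (q + 1) | p.Prime} ⊆
            {p ∈ range (q + 1) | p ∈ goodQ f 1} ∪ range (B + 1) := by
          intro p hp
          rw [mem_filter, mem_range] at hp
          rw [mem_union, mem_filter, mem_range, mem_range]
          by_cases h : B < p
          · exact Or.inl ⟨hp.1, hB p hp.2 h⟩
          · exact Or.inr (by omega)
        have h6 := (card_le_card h5).trans (card_union_le _ _)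
        have h7 : Nat.count (· ∈ goodQ f 1) q = n := Nat.count_nth_of_infinite hinf n
        have h8 : #{p ∈ range (q + 1) | p ∈ goodQ f 1} = n + 1 := by
          rw [← Nat.count_eq_card_filter_range, Nat.count_succ, if_pos h1, h7]
        rw [h8, card_range] at h6
        exact h6
      have h5 : (Nat.primeCounting q : ℝ) ≤ ((n : ℝ) + 1) + (B + 1) := by exact_mod_cast h4
      have h6 : ((n : ℝ) + 1) + (B + 1) ≤ ((B : ℝ) + 2) * ((n : ℝ) + 1) := by nlinarith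
      rw [div_le_iff₀ (by positivity)] at h3
      calc (q : ℝ) ≤ Nat.primeCounting q * (2 * Real.log q) := h3
        _ ≤ (((B : ℝ) + 2) * ((n : ℝ) + 1)) * (2 * Real.log q) := by
            apply mul_le_mul_of_nonneg_right (h5.trans h6) (by linarith)
        _ ≤ (((B : ℝ) + 2) * ((n : ℝ) + 1)) * (200 * Real.log q) := by
            apply mul_le_mul_of_nonneg_left _ (by positivity)
            linarith
        _ = _ := by ring

/-- the odd part of the data at the prime `p` -/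
noncomputable def gOdd (f : ℤ[X]) (G : ℝ → ℝ → ℝ) (p : ℕ) : ℝ :=
  (G (aQ f 1 p / Real.sqrt p) (bQ f 1 p / p) - G (-(aQ f 1 p / Real.sqrt p)) (bQ f 1 p / p)) / 2

theorem abs_gOdd_le (f : ℤ[X]) {G : ℝ → ℝ → ℝ} {M : ℝ} (hM : ∀ x y, |G x y| ≤ M) (p : ℕ) :
    |gOdd f G p| ≤ M := by
  unfold gOdd
  rw [abs_div, abs_two]
  have h := abs_sub (G (aQ f 1 p / Real.sqrt p) (bQ f 1 p / p))
    (G (-(aQ f 1 p / Real.sqrt p)) (bQ f 1 p / p))
  have h1 := hM (aQ f 1 p / Real.sqrt p) (bQ f 1 p / p)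
  have h2 := hM (-(aQ f 1 p / Real.sqrt p)) (bQ f 1 p / p)
  linarith

theorem abs_evenPart_le {G : ℝ → ℝ → ℝ} {M : ℝ} (hM : ∀ x y, |G x y| ≤ M) (x y : ℝ) :
    |evenPart G x y| ≤ M := by
  unfold evenPart
  rw [abs_div, abs_two]
  have h := abs_add_le (G x y) (G (-x) y)
  have h1 := hM x y
  have h2 := hM (-x) y
  linarith

theorem G_twist (f : ℤ[X]) (G : ℝ → ℝ → ℝ) {d : ℤ} {p : ℕ} (hp : p ∈ goodQ f d) :
    G (aQ f d p / Real.sqrt p) (bQ f d p / p) =
      evenPart G (aQ f 1 p / Real.sqrt p) (bQ f 1 p / p) + gOdd f G p * chi d p := by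
  obtain ⟨h1, h2, h3, _⟩ := hp
  rw [bQ_twist f h1 h2 h3, (aQ_twist f h1 h2 h3).1]
  unfold evenPart gOdd
  rcases (aQ_twist f h1 h2 h3).2 with h | h
  · rw [h]; ring_nf
  · rw [h, neg_one_mul, neg_div]; ring

/-- the difference of the averages -/
theorem avg_sub_le (f : ℤ[X]) (hinf : (Set.ofPred (· ∈ goodQ f 1)).Infinite) {G : ℝ → ℝ → ℝ} {M : ℝ}
    (hM : ∀ x y, |G x y| ≤ M) (d : ℤ) (x : ℕ) {η : ℝ} (hη : 0 ≤ η) (hη2 : η ≤ 1 / 2)
    (hN : 0 < (goodUpToQ f 1 x).card)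
    (hT : |TT (gpr f) (gOdd f G) (goodUpToQ f 1 x).card d| ≤ η * (goodUpToQ f 1 x).card)
    (hW : (WW (gpr f) (goodUpToQ f 1 x).card d : ℝ) ≤ η * (goodUpToQ f 1 x).card) :
    |avgQ f d G x - avgQ f 1 (evenPart G) x| ≤ 2 * (M + 1) * η := by
  classical
  set N : ℕ := (goodUpToQ f 1 x).card with hNdef
  have hN0 : (0 : ℝ) < N := by exact_mod_cast hN
  have hM0 : 0 ≤ M := (abs_nonneg _).trans (hM 0 0)
  set E : ℕ → ℝ := fun p => evenPart G (aQ f 1 p / Real.sqrt p) (bQ f 1 p / p) with hE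
  have hEM : ∀ p, |E p| ≤ M := fun p => abs_evenPart_le hM _ _
  -- the set of good primes of the twist
  have hset : goodUpToQ f d x = (goodUpToQ f 1 x).filter (fun p : ℕ => ¬ (p : ℤ) ∣ d) := by
    ext p
    unfold goodUpToQ
    rw [mem_filter, mem_filter, mem_filter, goodQ_iff]
    tauto
  have hWcard : ((goodUpToQ f 1 x).filter (fun p : ℕ => (p : ℤ) ∣ d)).card = WW (gpr f) N d := by
    have h1 : (((goodUpToQ f 1 x).filter (fun p : ℕ => (p : ℤ) ∣ d)).card : ℝ) = WW (gpr f) N d := by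
      unfold WW
      rw [card_filter, card_filter]
      push_cast
      rw [sum_goodUpToQ f hinf x (fun p : ℕ => if (p : ℤ) ∣ d then (1 : ℝ) else 0)]
    exact_mod_cast h1
  set W : ℕ := WW (gpr f) N d with hWdef
  set Nd : ℕ := (goodUpToQ f d x).card with hNd
  have hNN : Nd + W = N := by
    rw [hNd, hset, ← hWcard, add_comm, card_filter_add_card_filter_not]
  have hNNr : (Nd : ℝ) + W = N := by exact_mod_cast hNN
  have hNd0 : (0 : ℝ) < Nd := by nlinarith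
  have hNd2 : (N : ℝ) / 2 ≤ Nd := by nlinarith
  -- the sums
  set S : ℝ := ∑ p ∈ goodUpToQ f 1 x, E p with hS
  set S1 : ℝ := ∑ p ∈ goodUpToQ f d x, E p with hS1
  set T : ℝ := TT (gpr f) (gOdd f G) N d with hTdef
  have hsumd : ∑ p ∈ goodUpToQ f d x, G (aQ f d p / Real.sqrt p) (bQ f d p / p) = S1 + T := by
    have h1 : ∑ p ∈ goodUpToQ f d x, G (aQ f d p / Real.sqrt p) (bQ f d p / p) =
        ∑ p ∈ goodUpToQ f d x, (E p + gOdd f G p * chi d p) := by
      refine sum_congr rfl fun p hp => ?_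
      unfold goodUpToQ at hp
      rw [mem_filter] at hp
      exact G_twist f G hp.2
    rw [h1, sum_add_distrib]
    congr 1
    rw [hset, sum_filter, hTdef]
    unfold TT
    rw [← sum_goodUpToQ f hinf x (fun p => gOdd f G p * chi d p)]
    refine sum_congr rfl fun p hp => ?_
    by_cases h : (p : ℤ) ∣ d
    · -- the symbol vanishes
      rw [if_neg (not_not.2 h)]
      unfold goodUpToQ at hp
      rw [mem_filter] at hp
      have : Fact p.Prime := ⟨hp.2.1⟩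
      rw [chi_eq_legendre hp.2.2.1]
      have : legendreSym p d = 0 := by
        rw [legendreSym.eq_zero_iff, ZMod.intCast_zmod_eq_zero_iff_dvd]
        exact h
      rw [this]
      simp
    · rw [if_pos h]
  have hSS : |S - S1| ≤ M * W := by
    have h1 : S = ∑ p ∈ (goodUpToQ f 1 x).filter (fun p : ℕ => (p : ℤ) ∣ d), E p +
        ∑ p ∈ (goodUpToQ f 1 x).filter (fun p : ℕ => ¬ (p : ℤ) ∣ d), E p :=
      (sum_filter_add_sum_filter_not _ _ _).symm
    have h2 : S - S1 = ∑ p ∈ (goodUpToQ f 1 x).filter (fun p : ℕ => (p : ℤ) ∣ d), E p := by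
      rw [h1, hS1, hset]; ring
    rw [h2]
    calc |∑ p ∈ (goodUpToQ f 1 x).filter (fun p : ℕ => (p : ℤ) ∣ d), E p| ≤
        ∑ p ∈ (goodUpToQ f 1 x).filter (fun p : ℕ => (p : ℤ) ∣ d), |E p| := abs_sum_le_sum_abs _ _
      _ ≤ ∑ p ∈ (goodUpToQ f 1 x).filter (fun p : ℕ => (p : ℤ) ∣ d), M := sum_le_sum fun p _ => hEM p
      _ = M * W := by rw [sum_const, nsmul_eq_mul, hWcard, mul_comm]
  have hS1M : |S1| ≤ M * Nd := by
    calc |S1| ≤ ∑ p ∈ goodUpToQ f d x, |E p| := abs_sum_le_sum_abs _ _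
      _ ≤ ∑ p ∈ goodUpToQ f d x, M := sum_le_sum fun p _ => hEM p
      _ = M * Nd := by rw [sum_const, nsmul_eq_mul, mul_comm]
  have havgd : avgQ f d G x = (S1 + T) / Nd := by
    unfold avgQ
    rw [hsumd]
  have havg1 : avgQ f 1 (evenPart G) x = S / N := rfl
  rw [havgd, havg1]
  have hdec : (S1 + T) / Nd - S / N = S1 * W / (Nd * N) - (S - S1) / N + T / Nd := by
    have : (W : ℝ) = N - Nd := by linarith
    rw [this]
    field_simp
    ring
  rw [hdec]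
  have e1 : |S1 * W / (Nd * N)| ≤ M * η := by
    rw [abs_div, abs_mul, abs_of_nonneg (by positivity : (0 : ℝ) ≤ Nd * N),
      Nat.abs_cast, div_le_iff₀ (by positivity)]
    calc |S1| * W ≤ (M * Nd) * (η * N) :=
          mul_le_mul hS1M hW (Nat.cast_nonneg W) (by positivity)
      _ = M * η * (Nd * N) := by ring
  have e2 : |(S - S1) / N| ≤ M * η := by
    rw [abs_div, abs_of_pos hN0, div_le_iff₀ hN0]
    calc |S - S1| ≤ M * W := hSS
      _ ≤ M * (η * N) := mul_le_mul_of_nonneg_left hW hM0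
      _ = _ := by ring
  have e3 : |T / Nd| ≤ 2 * η := by
    rw [abs_div, abs_of_pos hNd0, div_le_iff₀ hNd0]
    calc |T| ≤ η * N := hT
      _ ≤ 2 * η * Nd := by nlinarith
  calc |S1 * W / (Nd * N) - (S - S1) / N + T / Nd|
      ≤ |S1 * W / (Nd * N) - (S - S1) / N| + |T / Nd| := abs_add_le _ _
    _ ≤ |S1 * W / (Nd * N)| + |(S - S1) / N| + |T / Nd| := by
        have := abs_sub (S1 * W / (Nd * N)) ((S - S1) / N)
        linarith
    _ ≤ _ := by linarith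

/-- the number of good primes up to `X` -/
theorem card_good_lower (f : ℤ[X]) (hinf : (Set.ofPred (· ∈ goodQ f 1)).Infinite) {C : ℝ}
    (hC : PrimeSeq (gpr f) C) (X : ℕ) (hX : 1 ≤ (goodUpToQ f 1 X).card) :
    (X : ℝ) ^ (2 / 3 : ℝ) ≤ 6 * C * (goodUpToQ f 1 X).card := by
  classical
  set n : ℕ := (goodUpToQ f 1 X).card with hn
  have h1 : X < gpr f n := by
    by_contra hlt
    push Not at hlt
    have h2 : Nat.count (· ∈ goodQ f 1) (gpr f n) = n := Nat.count_nth_of_infinite hinf _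
    have h3 : Nat.count (· ∈ goodQ f 1) (gpr f n) < Nat.count (· ∈ goodQ f 1) (X + 1) :=
      Nat.count_strict_mono (Nat.nth_mem_of_infinite hinf n) (by omega)
    rw [h2, ← card_goodUpToQ, ← hn] at h3
    exact lt_irrefl _ h3
  set q : ℝ := ((gpr f n : ℕ) : ℝ) with hq
  have hq1 : 1 < q := by rw [hq]; exact_mod_cast (hC.prime n).one_lt
  have hq0 : 0 < q := by linarith
  set t : ℝ := q ^ (1 / 3 : ℝ) with ht
  have ht0 : 0 < t := Real.rpow_pos_of_pos hq0 _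
  have ht3 : t ^ 3 = q := by
    rw [ht, ← Real.rpow_natCast, ← Real.rpow_mul hq0.le]
    norm_num
  have ht2 : t ^ 2 = q ^ (2 / 3 : ℝ) := by
    rw [ht, ← Real.rpow_natCast, ← Real.rpow_mul hq0.le]
    norm_num
  have hlog : Real.log q ≤ 3 * t := by
    have := Real.log_le_self ht0.le
    rw [← ht3, Real.log_pow]
    push_cast
    linarith
  have hgr : q ≤ C * ((n : ℝ) + 1) * Real.log q := hC.growth n
  have hCp := hC.pos
  have hn1 : (1 : ℝ) ≤ n := by exact_mod_cast hX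
  have h4 : t ^ 3 ≤ (C * ((n : ℝ) + 1) * 3) * t := by
    rw [ht3]
    calc q ≤ C * ((n : ℝ) + 1) * Real.log q := hgr
      _ ≤ C * ((n : ℝ) + 1) * (3 * t) := mul_le_mul_of_nonneg_left hlog (by positivity)
      _ = _ := by ring
  have h5 : t ^ 2 ≤ C * ((n : ℝ) + 1) * 3 := by
    have : t ^ 2 * t ≤ (C * ((n : ℝ) + 1) * 3) * t := by
      calc t ^ 2 * t = t ^ 3 := by ring
        _ ≤ _ := h4
    exact le_of_mul_le_mul_right this ht0
  calc (X : ℝ) ^ (2 / 3 : ℝ) ≤ q ^ (2 / 3 : ℝ) := by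
        apply Real.rpow_le_rpow (Nat.cast_nonneg X) _ (by norm_num)
        rw [hq]; exact_mod_cast h1.le
    _ = t ^ 2 := ht2.symm
    _ ≤ C * ((n : ℝ) + 1) * 3 := h5
    _ ≤ 6 * C * n := by nlinarith

/-- outside a small exceptional set of `d`, the sums with the character are small at all
scales -/
theorem exceptional_set (f : ℤ[X]) (hdeg : f.natDegree = 5 ∨ f.natDegree = 6)
    (hsep : (f.map (Int.castRingHom ℚ)).Separable) {M : ℝ} (hM : 0 ≤ M) {η : ℝ} (hη : 0 < η) :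
    ∃ B : ℝ, 0 ≤ B ∧ ∀ g : ℕ → ℝ, (∀ p, |g p| ≤ M) → ∀ D X : ℕ, 1 ≤ X → ∀ Y : ℝ, 1 ≤ Y →
      ∃ E : Finset ℤ, (E.card : ℝ) ≤ B * (D / Real.sqrt X + (D : ℝ) ^ (3 / 5 : ℝ) + Y) ∧
        ∀ d : ℤ, |d| ≤ D → Squarefree d → d ∉ E → ∀ x : ℕ, X ≤ x → (x : ℝ) ≤ Real.exp Y →
          0 < (goodUpToQ f 1 x).card ∧
          |TT (gpr f) g (goodUpToQ f 1 x).card d| ≤ η * (goodUpToQ f 1 x).card ∧
          (WW (gpr f) (goodUpToQ f 1 x).card d : ℝ) ≤ η * (goodUpToQ f 1 x).card := by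
  classical
  have hinf := goodQ_infinite f hdeg hsep
  obtain ⟨C, hC⟩ := primeSeq_gpr f hdeg hsep
  obtain ⟨B₁, hB₁0, hB₁⟩ := count_T hC hM hη
  obtain ⟨B₂, hB₂0, hB₂⟩ := count_W hC hη
  have hCp := hC.pos
  set L : ℝ := (6 * C) ^ (3 / 4 : ℝ) with hL
  have hL0 : 0 < L := Real.rpow_pos_of_pos (by positivity) _
  set X₁ : ℝ := ((gpr f 0 : ℕ) : ℝ) with hX₁
  have hX₁0 : 0 ≤ X₁ := Nat.cast_nonneg _
  refine ⟨2 * Real.sqrt X₁ + (B₁ * (6 * C) + B₁) + B₂ * L, by positivity,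
    fun g hg D X hX Y hY => ?_⟩
  set s : Finset ℤ := {d ∈ Finset.Icc (-(D : ℤ)) D | Squarefree d} with hs
  have hsq : SqfSet s D := by
    constructor
    · intro d hd
      rw [hs, mem_filter] at hd
      exact hd.2
    · intro d hd
      rw [hs, mem_filter, Finset.mem_Icc, ← abs_le] at hd
      exact_mod_cast hd.1
  have hmem : ∀ d : ℤ, |d| ≤ D → Squarefree d → d ∈ s := by
    intro d h1 h2
    rw [hs, mem_filter, Finset.mem_Icc, ← abs_le]
    exact ⟨h1, h2⟩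
  have hXr : (1 : ℝ) ≤ X := by exact_mod_cast hX
  have hX0 : (0 : ℝ) < X := by linarith
  have hsX : 0 < Real.sqrt X := Real.sqrt_pos.2 hX0
  have hD0 : (0 : ℝ) ≤ D := Nat.cast_nonneg D
  have hD35 : 0 ≤ (D : ℝ) ^ (3 / 5 : ℝ) := Real.rpow_nonneg hD0 _
  have hY0 : 0 ≤ Y := by linarith
  have hDX : 0 ≤ (D : ℝ) / Real.sqrt X := by positivity
  have hsum0 : 0 ≤ (D : ℝ) / Real.sqrt X + (D : ℝ) ^ (3 / 5 : ℝ) + Y := by positivity
  by_cases hn : (goodUpToQ f 1 X).card = 0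
  · -- `X` is bounded
    refine ⟨s, ?_, fun d h1 h2 h3 => absurd (hmem d h1 h2) h3⟩
    have h1 : (X : ℝ) ≤ X₁ := by
      have h2 : X < gpr f 0 := by
        by_contra hlt
        push Not at hlt
        have h3 : gpr f 0 ∈ goodQ f 1 := Nat.nth_mem_of_infinite hinf 0
        have h4 : gpr f 0 ∈ goodUpToQ f 1 X := by
          unfold goodUpToQ
          rw [mem_filter, Finset.mem_Icc]
          exact ⟨⟨h3.1.one_lt.le, hlt⟩, h3⟩
        rw [card_eq_zero] at hn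
        rw [hn] at h4
        exact absurd h4 (notMem_empty _)
      rw [hX₁]; exact_mod_cast h2.le
    have h2 : Real.sqrt X ≤ Real.sqrt X₁ := Real.sqrt_le_sqrt h1
    have h3 : 2 * (D : ℝ) ≤ 2 * Real.sqrt X₁ * (D / Real.sqrt X) := by
      rw [mul_div_assoc', le_div_iff₀ hsX]
      nlinarith
    have h4 := hsq.card_le
    have h5 : 0 ≤ 2 * Real.sqrt X₁ * ((D : ℝ) ^ (3 / 5 : ℝ) + Y) +
        ((B₁ * (6 * C) + B₁) + B₂ * L) * ((D : ℝ) / Real.sqrt X + (D : ℝ) ^ (3 / 5 : ℝ) + Y) := by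
      positivity
    calc (s.card : ℝ) ≤ 2 * D := h4
      _ ≤ 2 * Real.sqrt X₁ * (D / Real.sqrt X) := h3
      _ ≤ 2 * Real.sqrt X₁ * (D / Real.sqrt X) + _ := le_add_of_nonneg_right h5
      _ = _ := by ring
  have hn1 : 1 ≤ (goodUpToQ f 1 X).card := Nat.one_le_iff_ne_zero.2 hn
  set n₀ : ℕ := (goodUpToQ f 1 X).card with hn₀
  have hn₀r : (0 : ℝ) < n₀ := by exact_mod_cast hn1
  have hlow := card_good_lower f hinf hC X hn1
  set N : ℕ := ⌊Real.exp Y⌋₊ with hN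
  set A := {d ∈ s | ∃ n, n₀ ≤ n ∧ (n : ℝ) ≤ Real.exp Y ∧ η * n < |TT (gpr f) g n d|} with hA
  set B := {d ∈ s | ∃ n, n₀ ≤ n ∧ n ≤ N ∧ η * n < (WW (gpr f) n d : ℝ)} with hB
  have h1 := hB₁ g hg D s hsq n₀ hn1 Y hY
  have h2 := hB₂ D s hsq n₀ hn1 N
  refine ⟨A ∪ B, ?_, ?_⟩
  · have e1 : (D : ℝ) / n₀ ≤ 6 * C * (D / Real.sqrt X) := by
      rw [mul_div_assoc', div_le_div_iff₀ hn₀r hsX]
      have : Real.sqrt X ≤ (X : ℝ) ^ (2 / 3 : ℝ) := by
        rw [Real.sqrt_eq_rpow]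
        exact Real.rpow_le_rpow_of_exponent_le hXr (by norm_num)
      calc (D : ℝ) * Real.sqrt X ≤ D * (6 * C * n₀) :=
            mul_le_mul_of_nonneg_left (this.trans hlow) hD0
        _ = 6 * C * D * n₀ := by ring
    have e2 : (D : ℝ) / (n₀ : ℝ) ^ (3 / 4 : ℝ) ≤ L * (D / Real.sqrt X) := by
      have hn34 : 0 < (n₀ : ℝ) ^ (3 / 4 : ℝ) := Real.rpow_pos_of_pos hn₀r _
      rw [mul_div_assoc', div_le_div_iff₀ hn34 hsX]
      have h3 := Real.rpow_le_rpow (by positivity) hlow (by norm_num : (0 : ℝ) ≤ 3 / 4)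
      rw [← Real.rpow_mul hX0.le, Real.mul_rpow (by positivity) hn₀r.le] at h3
      have h4 : (2 / 3 : ℝ) * (3 / 4) = 1 / 2 := by norm_num
      rw [h4, ← Real.sqrt_eq_rpow] at h3
      calc (D : ℝ) * Real.sqrt X ≤ D * ((6 * C) ^ (3 / 4 : ℝ) * (n₀ : ℝ) ^ (3 / 4 : ℝ)) :=
            mul_le_mul_of_nonneg_left h3 hD0
        _ = L * D * (n₀ : ℝ) ^ (3 / 4 : ℝ) := by rw [hL]; ring
    have e3 : ((A ∪ B).card : ℝ) ≤ A.card + B.card := by exact_mod_cast card_union_le A B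
    have e4 : B₁ * (D / n₀ + (D : ℝ) ^ (3 / 5 : ℝ) + Y) ≤
        (B₁ * (6 * C) + B₁) * ((D : ℝ) / Real.sqrt X + (D : ℝ) ^ (3 / 5 : ℝ) + Y) := by
      have e5 : B₁ * (D / n₀) ≤ B₁ * (6 * C * (D / Real.sqrt X)) :=
        mul_le_mul_of_nonneg_left e1 hB₁0
      have e6 : 0 ≤ B₁ * (D / Real.sqrt X) + B₁ * (6 * C) * ((D : ℝ) ^ (3 / 5 : ℝ) + Y) := by
        positivity
      calc B₁ * (D / n₀ + (D : ℝ) ^ (3 / 5 : ℝ) + Y) =
          B₁ * (D / n₀) + B₁ * ((D : ℝ) ^ (3 / 5 : ℝ) + Y) := by ring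
        _ ≤ B₁ * (6 * C * (D / Real.sqrt X)) + B₁ * ((D : ℝ) ^ (3 / 5 : ℝ) + Y) + _ :=
            (add_le_add e5 le_rfl).trans (le_add_of_nonneg_right e6)
        _ = _ := by ring
    have e7 : B₂ * (D / (n₀ : ℝ) ^ (3 / 4 : ℝ)) ≤
        B₂ * L * ((D : ℝ) / Real.sqrt X + (D : ℝ) ^ (3 / 5 : ℝ) + Y) := by
      have e8 : B₂ * (D / (n₀ : ℝ) ^ (3 / 4 : ℝ)) ≤ B₂ * (L * (D / Real.sqrt X)) :=
        mul_le_mul_of_nonneg_left e2 hB₂0
      have e9 : 0 ≤ B₂ * L * ((D : ℝ) ^ (3 / 5 : ℝ) + Y) := by positivity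
      calc _ ≤ B₂ * (L * (D / Real.sqrt X)) + B₂ * L * ((D : ℝ) ^ (3 / 5 : ℝ) + Y) := by linarith
        _ = _ := by ring
    have e10 : 0 ≤ 2 * Real.sqrt X₁ * ((D : ℝ) / Real.sqrt X + (D : ℝ) ^ (3 / 5 : ℝ) + Y) := by
      positivity
    have e11 : (2 * Real.sqrt X₁ + (B₁ * (6 * C) + B₁) + B₂ * L) *
        ((D : ℝ) / Real.sqrt X + (D : ℝ) ^ (3 / 5 : ℝ) + Y) =
        2 * Real.sqrt X₁ * ((D : ℝ) / Real.sqrt X + (D : ℝ) ^ (3 / 5 : ℝ) + Y) +
        (B₁ * (6 * C) + B₁) * ((D : ℝ) / Real.sqrt X + (D : ℝ) ^ (3 / 5 : ℝ) + Y) +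
        B₂ * L * ((D : ℝ) / Real.sqrt X + (D : ℝ) ^ (3 / 5 : ℝ) + Y) := by ring
    rw [e11]
    linarith
  · intro d hd1 hd2 hd3 x hx1 hx2
    have hds := hmem d hd1 hd2
    set n : ℕ := (goodUpToQ f 1 x).card with hn'
    have hnx : n ≤ x := by
      rw [hn']
      unfold goodUpToQ
      refine (card_filter_le _ _).trans ?_
      rw [Nat.card_Icc, Nat.add_sub_cancel]
    have hnn : n₀ ≤ n := by
      rw [hn', hn₀, card_goodUpToQ, card_goodUpToQ]
      exact Nat.count_monotone _ (by omega)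
    have hnexp : (n : ℝ) ≤ Real.exp Y := le_trans (by exact_mod_cast hnx) hx2
    rw [mem_union, not_or] at hd3
    refine ⟨by omega, ?_, ?_⟩
    · by_contra hT
      push Not at hT
      exact hd3.1 (mem_filter.2 ⟨hds, n, hnn, hnexp, hT⟩)
    · by_contra hW
      push Not at hW
      exact hd3.2 (mem_filter.2 ⟨hds, n, hnn, Nat.le_floor hnexp, hW⟩)

/-- the main theorem -/
theorem almost_all_main (f : ℤ[X]) (hdeg : f.natDegree = 5 ∨ f.natDegree = 6)
    (hsep : (f.map (Int.castRingHom ℚ)).Separable) (M ε : ℝ) (hε : 0 < ε) :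
    ∃ C : ℝ, ∀ G : ℝ → ℝ → ℝ, (∀ x y, |G x y| ≤ M) → ∀ D X : ℕ, 1 ≤ X → ∀ Y : ℝ, 1 ≤ Y →
      ({d : ℤ | |d| ≤ D ∧ Squarefree d ∧ ∃ x : ℕ, X ≤ x ∧ (x : ℝ) ≤ Real.exp Y ∧
        ε < |avgQ f d G x - avgQ f 1 (evenPart G) x|}.ncard : ℝ) ≤
        C * (D / Real.sqrt X + (D : ℝ) ^ (3 / 5 : ℝ) + Y) := by
  classical
  have hinf := goodQ_infinite f hdeg hsep
  have hM0 : 0 ≤ |M| := abs_nonneg M
  set η : ℝ := min (1 / 2) (ε / (2 * (|M| + 1))) with hη
  have hη0 : 0 < η := lt_min (by norm_num) (by positivity)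
  have hη2 : η ≤ 1 / 2 := min_le_left _ _
  have hηε : 2 * (|M| + 1) * η ≤ ε := by
    have : η ≤ ε / (2 * (|M| + 1)) := min_le_right _ _
    rw [le_div_iff₀ (by positivity)] at this
    linarith
  obtain ⟨B, hB0, hB⟩ := exceptional_set f hdeg hsep hM0 hη0
  refine ⟨B, fun G hG D X hX Y hY => ?_⟩
  have hGM : ∀ x y, |G x y| ≤ |M| := fun x y => (hG x y).trans (le_abs_self M)
  obtain ⟨E, hE1, hE2⟩ := hB (gOdd f G) (abs_gOdd_le f hGM) D X hX Y hY
  have hsub : {d : ℤ | |d| ≤ D ∧ Squarefree d ∧ ∃ x : ℕ, X ≤ x ∧ (x : ℝ) ≤ Real.exp Y ∧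
        ε < |avgQ f d G x - avgQ f 1 (evenPart G) x|} ⊆ (E : Set ℤ) := by
    rintro d ⟨hd1, hd2, x, hx1, hx2, hx3⟩
    by_contra hd
    obtain ⟨h1, h2, h3⟩ := hE2 d hd1 hd2 (fun h => hd (mem_coe.2 h)) x hx1 hx2
    have := avg_sub_le f hinf hGM d x hη0.le hη2 h1 h2 h3
    linarith
  have h3 := Set.ncard_le_ncard hsub (Finset.finite_toSet _)
  rw [Set.ncard_coe_finset] at h3
  exact le_trans (by exact_mod_cast h3) hE1

end Pool.Agent.Work.MP_6dc561_nt.AA
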