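import Mathlib

/-!
# Jacobi symbols: cancellation over intervals
-/

open NumberTheorySymbols

namespace Pool.Agent.Work.MP_6dc561_nt.AA

/-- the sum of a periodic function with vanishing sum over a period -/
theorem abs_sum_range_le {h : ℕ → ℝ} {m : ℕ} (hm : 0 < m) (hper : ∀ n, h (n + m) = h n)
    (hz : ∑ n ∈ Finset.range m, h n = 0) (hb : ∀ n, |h n| ≤ 1) (N : ℕ) :
    |∑ n ∈ Finset.range N, h n| ≤ m := by
  have key : ∀ q r : ℕ, ∑ n ∈ Finset.range (m * q + r), h n = ∑ n ∈ Finset.range r, h n := by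
    intro q
    induction q with
    | zero => intro r; simp
    | succ q ih =>
      intro r
      have e1 : m * (q + 1) + r = m + (m * q + r) := by ring
      rw [e1, Finset.sum_range_add, hz, zero_add, ← ih r]
      refine Finset.sum_congr rfl fun n _ => ?_
      rw [add_comm m n, hper]
  have h1 : N = m * (N / m) + N % m := (Nat.div_add_mod N m).symm
  rw [h1, key]
  calc |∑ n ∈ Finset.range (N % m), h n| ≤ ∑ n ∈ Finset.range (N % m), |h n| :=
        Finset.abs_sum_le_sum_abs _ _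
    _ ≤ ∑ n ∈ Finset.range (N % m), 1 := Finset.sum_le_sum fun n _ => hb n
    _ = ((N % m : ℕ) : ℝ) := by simp
    _ ≤ m := by exact_mod_cast (Nat.mod_lt N hm).le

/-- a function on `ZMod m` which changes sign under multiplication by a unit has sum zero -/
theorem sum_range_eq_zero {m : ℕ} (hm : 0 < m) (H : ZMod m → ℝ) (u : (ZMod m)ˣ)
    (hu : ∀ z, H (u * z) = - H z) (c : ZMod m) :
    ∑ n ∈ Finset.range m, H ((n : ZMod m) + c) = 0 := by
  have : NeZero m := ⟨hm.ne'⟩
  have h1 : ∑ n ∈ Finset.range m, H ((n : ZMod m) + c) = ∑ z : ZMod m, H (z + c) := by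
    rw [Finset.sum_range]
    refine Fintype.sum_equiv (ZMod.finEquiv m).toEquiv _ _ fun i => ?_
    have : ((ZMod.finEquiv m).toEquiv i : ZMod m) = ((i : ℕ) : ZMod m) := by
      have h2 : ((ZMod.finEquiv m).toEquiv i : ZMod m) = (ZMod.finEquiv m) i := rfl
      rw [h2]
      apply ZMod.val_injective m
      rw [ZMod.val_natCast, Nat.mod_eq_of_lt i.2]
      obtain ⟨k, rfl⟩ : ∃ k, m = k + 1 := ⟨m - 1, by omega⟩
      rfl
    rw [this]
  rw [h1, Fintype.sum_equiv (Equiv.addRight c) (fun z : ZMod m => H (z + c)) H fun z => rfl]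
  have h2 : ∑ z : ZMod m, H z = ∑ z : ZMod m, H (u * z) :=
    (Fintype.sum_equiv (Units.mulLeft u) (fun z => H (u * z)) H fun z => rfl).symm
  have h3 : ∑ z : ZMod m, H (u * z) = - ∑ z : ZMod m, H z := by
    rw [← Finset.sum_neg_distrib]
    exact Finset.sum_congr rfl fun z _ => hu z
  linarith

/-- the character `n ↦ (d | n)` on odd `n`, extended by zero -/
noncomputable def chi (d : ℤ) (n : ℕ) : ℝ := if Odd n then (J(d | n) : ℝ) else 0

theorem chi_mul_right (d : ℤ) (a b : ℕ) : chi d (a * b) = chi d a * chi d b := by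
  unfold chi
  by_cases ha : Odd a
  · by_cases hb : Odd b
    · rw [if_pos (ha.mul hb), if_pos ha, if_pos hb, jacobiSym.mul_right' d ha.pos.ne' hb.pos.ne']
      push_cast; ring
    · rw [if_neg (fun h => hb (Nat.odd_mul.1 h).2), if_neg hb, mul_zero]
  · rw [if_neg (fun h => ha (Nat.odd_mul.1 h).1), if_neg ha, zero_mul]

theorem chi_mul_left (d e : ℤ) (n : ℕ) : chi (d * e) n = chi d n * chi e n := by
  unfold chi
  split_ifs
  · rw [jacobiSym.mul_left]; push_cast; ring
  · ring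

theorem abs_chi_le (d : ℤ) (n : ℕ) : |chi d n| ≤ 1 := by
  unfold chi
  split_ifs
  · rcases jacobiSym.trichotomy d n with h | h | h <;> rw [h] <;> norm_num
  · norm_num

theorem chi_sq_le (d : ℤ) (n : ℕ) : chi d n ^ 2 ≤ 1 := by
  have := abs_chi_le d n
  rw [← sq_abs]
  nlinarith [abs_nonneg (chi d n)]

theorem chi_one (d : ℤ) : chi d 1 = 1 := by
  unfold chi
  rw [if_pos odd_one, jacobiSym.one_right]; norm_num

/-- periodicity in the lower argument -/
theorem chi_add {d : ℤ} (n k : ℕ) : chi d (n + 4 * d.natAbs * k) = chi d n := by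
  unfold chi
  have hodd : Odd (n + 4 * d.natAbs * k) ↔ Odd n := by
    have : Even (4 * d.natAbs * k) := ⟨2 * d.natAbs * k, by ring⟩
    constructor
    · intro h
      by_contra hn
      rw [Nat.not_odd_iff_even] at hn
      exact (Nat.not_odd_iff_even.2 (hn.add this)) h
    · intro h; exact h.add_even this
  by_cases hn : Odd n
  · rw [if_pos (hodd.2 hn), if_pos hn, jacobiSym.mod_right d (hodd.2 hn),
      jacobiSym.mod_right d hn, Nat.add_mul_mod_self_left]
  · rw [if_neg (fun h => hn (hodd.1 h)), if_neg hn]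

theorem chi_mod (d : ℤ) (n : ℕ) : chi d (n % (4 * d.natAbs)) = chi d n := by
  conv_rhs => rw [← Nat.mod_add_div n (4 * d.natAbs)]
  rw [chi_add]

theorem chi_congr {d : ℤ} {m n : ℕ} (h : m ≡ n [MOD 4 * d.natAbs]) : chi d m = chi d n := by
  rw [← chi_mod d m, ← chi_mod d n, h]

/-- If `(m | u) = -1` for some `u` then the sums of `(m | n)` over intervals are bounded. -/
theorem abs_sum_chi_le {m : ℤ} (hm : m ≠ 0) {u : ℕ} (hu : chi m u = -1) (N : ℕ) :
    |∑ n ∈ Finset.range N, chi m n| ≤ 4 * |(m : ℝ)| := by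
  set M := 4 * m.natAbs with hM
  have hM0 : 0 < M := by have := Int.natAbs_pos.2 hm; omega
  have : NeZero M := ⟨hM0.ne'⟩
  -- `u` is coprime to `M`
  have hodd : Odd u := by
    by_contra h
    unfold chi at hu
    rw [if_neg h] at hu
    norm_num at hu
  have hcop : u.Coprime M := by
    have h1 : jacobiSym m u ≠ 0 := by
      intro h
      unfold chi at hu
      rw [if_pos hodd, h] at hu
      norm_num at hu
    have : NeZero u := ⟨hodd.pos.ne'⟩
    rw [Ne, jacobiSym.eq_zero_iff_not_coprime, not_not] at h1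
    have h2 : Nat.Coprime m.natAbs u := by
      rwa [Int.gcd_eq_natAbs, Int.natAbs_natCast] at h1
    rw [hM]
    refine Nat.Coprime.mul_right ?_ h2.symm
    have : Nat.Coprime u 2 := hodd.coprime_two_right
    exact (this.pow_right 2)
  set H : ZMod M → ℝ := fun z => chi m z.val with hH
  have hHn : ∀ n : ℕ, H (n : ZMod M) = chi m n := by
    intro n
    simp only [hH, ZMod.val_natCast]
    exact chi_mod m n
  have hzero := sum_range_eq_zero hM0 H (ZMod.unitOfCoprime u hcop) (by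
    intro z
    have e1 : ((ZMod.unitOfCoprime u hcop : (ZMod M)ˣ) : ZMod M) * z = ((u * z.val : ℕ) : ZMod M) := by
      push_cast
      rw [ZMod.coe_unitOfCoprime, ZMod.natCast_zmod_val]
    rw [e1, hHn, chi_mul_right, hu]
    simp only [hH]
    ring) 0
  simp only [add_zero, hHn] at hzero
  have h := abs_sum_range_le hM0 (fun n => by
    have := chi_add (d := m) n 1
    rwa [mul_one] at this) hzero (abs_chi_le m) N
  refine h.trans (le_of_eq ?_)
  rw [hM]
  push_cast
  rw [Nat.cast_natAbs, Int.cast_abs]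

theorem chi_eq_one_of_modEq {c : ℤ} {u : ℕ} (h : u ≡ 1 [MOD 4 * c.natAbs]) : chi c u = 1 := by
  rw [chi_congr h, chi_one]

theorem chi_natCast_prime {l u : ℕ} (hl : l.Prime) (hu4 : u % 4 = 1) (hl2 : l ≠ 2)
    [Fact l.Prime] (hns : ¬ IsSquare ((u : ℕ) : ZMod l)) : chi (l : ℤ) u = -1 := by
  have hodd : Odd u := by rw [Nat.odd_iff]; omega
  have hlodd : Odd l := hl.odd_of_ne_two hl2
  unfold chi
  rw [if_pos hodd, jacobiSym.quadratic_reciprocity_one_mod_four' hlodd hu4,
    ← jacobiSym.legendreSym.to_jacobiSym, (legendreSym.eq_neg_one_iff l).2 (by exact_mod_cast hns)]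
  norm_num

/-- an odd prime dividing exactly one of two integers gives a value `-1` -/
theorem exists_neg_of_prime {c : ℤ} {l : ℕ} (hl : l.Prime) (hl2 : l ≠ 2)
    (hlc : ¬ (l : ℤ) ∣ c) : ∃ u : ℕ, chi (l * c) u = -1 := by
  have : Fact l.Prime := ⟨hl⟩
  have hchar : ringChar (ZMod l) ≠ 2 := by rw [ZMod.ringChar_zmod_n]; exact hl2
  obtain ⟨r, hr⟩ := FiniteField.exists_nonsquare (F := ZMod l) hchar
  have hcop : Nat.Coprime (4 * c.natAbs) l := by
    rw [Nat.coprime_mul_iff_left]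
    constructor
    · have : Nat.Coprime 2 l := (Nat.coprime_primes Nat.prime_two hl).2 hl2.symm
      exact Nat.Coprime.pow_left 2 this
    · rw [Nat.coprime_comm, Nat.Prime.coprime_iff_not_dvd hl]
      intro h
      exact hlc (Int.natCast_dvd.2 h)
  obtain ⟨u, hu1, hu2⟩ := Nat.chineseRemainder hcop 1 r.val
  refine ⟨u, ?_⟩
  have h4 : u % 4 = 1 := by
    have := hu1.of_mul_right c.natAbs
    exact this
  rw [chi_mul_left, chi_eq_one_of_modEq hu1, mul_one]
  refine chi_natCast_prime hl h4 hl2 ?_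
  rw [(ZMod.natCast_eq_natCast_iff u r.val l).2 hu2, ZMod.natCast_zmod_val]
  exact hr

/-- the remaining cases: `-1`, `2`, `-2` -/
theorem exists_neg_of_small {s : ℤ} (hs : Odd s) {t : ℤ} (ht : t = -1 ∨ t = 2 ∨ t = -2) :
    ∃ u : ℕ, chi (t * s ^ 2) u = -1 := by
  have hs0 : s ≠ 0 := by rintro rfl; exact absurd hs (by decide)
  have hodd : Odd s.natAbs := Int.natAbs_odd.2 hs
  have hcop : Nat.Coprime 8 s.natAbs := (hodd.coprime_two_left).pow_left 3
  have key : ∀ r : ℕ, ∃ u : ℕ, u % 8 = r % 8 ∧ u ≡ 1 [MOD s.natAbs] := by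
    intro r
    obtain ⟨u, hu1, hu2⟩ := Nat.chineseRemainder hcop r 1
    exact ⟨u, hu1, hu2⟩
  have hsq : ∀ u : ℕ, Odd u → u ≡ 1 [MOD s.natAbs] → chi (s ^ 2) u = 1 := by
    intro u hu h1
    unfold chi
    rw [if_pos hu, jacobiSym.sq_one']
    · norm_num
    · rw [Int.gcd_eq_natAbs, Int.natAbs_natCast]
      have h2 := h1.gcd_eq
      rw [Nat.gcd_one_left] at h2
      rw [Nat.gcd_comm]; exact h2
  rcases ht with rfl | rfl | rfl
  · obtain ⟨u, h1, h2⟩ := key 3
    have hu : Odd u := by rw [Nat.odd_iff]; omega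
    refine ⟨u, ?_⟩
    rw [chi_mul_left, hsq u hu h2, mul_one]
    unfold chi
    rw [if_pos hu, jacobiSym.at_neg_one hu, ZMod.χ₄_nat_three_mod_four (by omega)]
    norm_num
  · obtain ⟨u, h1, h2⟩ := key 3
    have hu : Odd u := by rw [Nat.odd_iff]; omega
    refine ⟨u, ?_⟩
    rw [chi_mul_left, hsq u hu h2, mul_one]
    unfold chi
    rw [if_pos hu, jacobiSym.at_two hu, ZMod.χ₈_nat_eq_if_mod_eight]
    have : u % 8 = 3 := by omega
    simp [this]
    omega
  · obtain ⟨u, h1, h2⟩ := key 5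
    have hu : Odd u := by rw [Nat.odd_iff]; omega
    refine ⟨u, ?_⟩
    rw [chi_mul_left, hsq u hu h2, mul_one]
    unfold chi
    rw [if_pos hu, jacobiSym.at_neg_two hu, ZMod.χ₈'_nat_eq_if_mod_eight]
    have : u % 8 = 5 := by omega
    simp [this]
    omega

/-- a squarefree integer is `± 1` or `± 2` times an odd positive squarefree number -/
theorem exists_odd_part {d : ℤ} (hd : Squarefree d) :
    ∃ (t : ℤ) (s : ℕ), d = t * s ∧ Odd s ∧ Squarefree s ∧ (t = 1 ∨ t = -1 ∨ t = 2 ∨ t = -2) := by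
  have hn : Squarefree d.natAbs := Int.squarefree_natAbs.2 hd
  have hsgn : d = d.natAbs ∨ d = -(d.natAbs : ℤ) := Int.natAbs_eq d
  rcases Nat.even_or_odd d.natAbs with he | ho
  · obtain ⟨s, hs⟩ := he.two_dvd
    have hs2 : Odd s := by
      by_contra h
      rw [Nat.not_odd_iff_even] at h
      obtain ⟨r, hr⟩ := h.two_dvd
      have : 2 * 2 ∣ d.natAbs := ⟨r, by rw [hs, hr]; ring⟩
      have h2 := hn 2 this
      exact absurd (Nat.isUnit_iff.1 h2) (by norm_num)
    have hsq : Squarefree s := hn.squarefree_of_dvd ⟨2, by rw [hs]; ring⟩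
    rcases hsgn with h | h
    · exact ⟨2, s, by rw [h, hs]; push_cast; ring, hs2, hsq, by tauto⟩
    · exact ⟨-2, s, by rw [h, hs]; push_cast; ring, hs2, hsq, by tauto⟩
  · rcases hsgn with h | h
    · exact ⟨1, d.natAbs, by rw [one_mul]; exact h, ho, hn, by tauto⟩
    · exact ⟨-1, d.natAbs, by rw [neg_one_mul]; exact h, ho, hn, by tauto⟩

/-- for two different squarefree integers the product symbol takes the value `-1` -/
theorem exists_neg {d e : ℤ} (hd : Squarefree d) (he : Squarefree e) (hne : d ≠ e) :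
    ∃ u : ℕ, chi (d * e) u = -1 := by
  -- an odd prime dividing exactly one of them
  have hA : ∀ {d e : ℤ}, Squarefree d → ∀ l : ℕ, l.Prime → l ≠ 2 → (l : ℤ) ∣ d → ¬ (l : ℤ) ∣ e →
      ∃ u : ℕ, chi (d * e) u = -1 := by
    intro d e hd l hl hl2 hld hle
    obtain ⟨c, hc⟩ := hld
    have hlc : ¬ (l : ℤ) ∣ c := by
      rintro ⟨r, hr⟩
      have : (l : ℤ) * l ∣ d := ⟨r, by rw [hc, hr]; ring⟩
      have h2 := hd _ this
      rw [Int.isUnit_iff_natAbs_eq, Int.natAbs_natCast] at h2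
      exact hl.one_lt.ne' h2
    have hlce : ¬ (l : ℤ) ∣ c * e := by
      intro h
      rcases (Nat.prime_iff_prime_int.1 hl).dvd_or_dvd h with h | h
      · exact hlc h
      · exact hle h
    obtain ⟨u, hu⟩ := exists_neg_of_prime (c := c * e) hl hl2 hlce
    exact ⟨u, by rw [hc, mul_assoc]; exact hu⟩
  by_cases h1 : ∃ l : ℕ, l.Prime ∧ l ≠ 2 ∧ (l : ℤ) ∣ d ∧ ¬ (l : ℤ) ∣ e
  · obtain ⟨l, hl, hl2, hld, hle⟩ := h1
    exact hA hd l hl hl2 hld hle
  by_cases h2 : ∃ l : ℕ, l.Prime ∧ l ≠ 2 ∧ (l : ℤ) ∣ e ∧ ¬ (l : ℤ) ∣ d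
  · obtain ⟨l, hl, hl2, hle, hld⟩ := h2
    rw [mul_comm]
    exact hA he l hl hl2 hle hld
  push Not at h1 h2
  obtain ⟨t, s, hds, hso, hss, ht⟩ := exists_odd_part hd
  obtain ⟨t', s', hes, hso', hss', ht'⟩ := exists_odd_part he
  have hs0 : s ≠ 0 := hso.pos.ne'
  have hs0' : s' ≠ 0 := hso'.pos.ne'
  have hnot : ∀ {t : ℤ} {l : ℕ}, (t = 1 ∨ t = -1 ∨ t = 2 ∨ t = -2) → l.Prime → l ≠ 2 →
      ¬ (l : ℤ) ∣ t := by
    intro t l ht hl hl2 h
    have h3 : l ∣ t.natAbs := Int.natCast_dvd.1 h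
    have h4 : t.natAbs ∣ 2 := by rcases ht with rfl | rfl | rfl | rfl <;> decide
    have h5 := (Nat.prime_dvd_prime_iff_eq hl Nat.prime_two).1 (h3.trans h4)
    exact hl2 h5
  have hdvd : ∀ {t : ℤ} {s l : ℕ}, (t = 1 ∨ t = -1 ∨ t = 2 ∨ t = -2) → l.Prime → l ≠ 2 →
      ((l : ℤ) ∣ t * s ↔ l ∣ s) := by
    intro t s l ht hl hl2
    constructor
    · intro h
      rcases (Nat.prime_iff_prime_int.1 hl).dvd_or_dvd h with h | h
      · exact absurd h (hnot ht hl hl2)
      · exact_mod_cast h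
    · intro h
      exact dvd_mul_of_dvd_right (by exact_mod_cast h) _
  have hodd2 : ∀ {s l : ℕ}, Odd s → l ∣ s → l ≠ 2 := by
    rintro s l hs hl rfl
    exact (Nat.not_even_iff_odd.2 hs) (even_iff_two_dvd.2 hl)
  have hfac : s.primeFactors = s'.primeFactors := by
    ext l
    rw [Nat.mem_primeFactors_of_ne_zero hs0, Nat.mem_primeFactors_of_ne_zero hs0']
    constructor
    · rintro ⟨hl, hls⟩
      have hl2 := hodd2 hso hls
      refine ⟨hl, ?_⟩
      have := h1 l hl hl2 (by rw [hds]; exact (hdvd ht hl hl2).2 hls)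
      rw [hes] at this
      exact (hdvd ht' hl hl2).1 this
    · rintro ⟨hl, hls⟩
      have hl2 := hodd2 hso' hls
      refine ⟨hl, ?_⟩
      have := h2 l hl hl2 (by rw [hes]; exact (hdvd ht' hl hl2).2 hls)
      rw [hds] at this
      exact (hdvd ht hl hl2).1 this
  have hss2 : s = s' := by
    rw [← Nat.prod_primeFactors_of_squarefree hss, ← Nat.prod_primeFactors_of_squarefree hss', hfac]
  subst hss2
  have hso2 : Odd (s : ℤ) := by exact_mod_cast hso
  have htt : t ≠ t' := by rintro rfl; exact hne (hds.trans hes.symm)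
  have hprod : d * e = (t * t') * (s : ℤ) ^ 2 := by rw [hds, hes]; ring
  rw [hprod]
  have hfour : ∀ u : ℕ, chi ((-1) * (s : ℤ) ^ 2) u = -1 → chi ((-4) * (s : ℤ) ^ 2) u = -1 := by
    intro u hu
    have hodd : Odd u := by
      by_contra h
      unfold chi at hu
      rw [if_neg h] at hu
      norm_num at hu
    have h4 : chi 4 u = 1 := by
      have e : (4 : ℤ) = 2 ^ 2 := by norm_num
      unfold chi
      rw [if_pos hodd, e, jacobiSym.sq_one']
      · norm_num
      · rw [Int.gcd_eq_natAbs]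
        exact hodd.coprime_two_left
    have e : (-4 : ℤ) * (s : ℤ) ^ 2 = 4 * ((-1) * (s : ℤ) ^ 2) := by ring
    rw [e, chi_mul_left, h4, hu, one_mul]
  have hT : t * t' = -1 ∨ t * t' = 2 ∨ t * t' = -2 ∨ t * t' = -4 := by
    clear hnot hdvd hodd2 hfour hprod hes hds h1 h2 hA hne
    rcases ht with rfl | rfl | rfl | rfl <;> rcases ht' with rfl | rfl | rfl | rfl <;>
      first
      | exact absurd rfl htt
      | decide
  rcases hT with h | h | h | h
  · rw [h]; exact exists_neg_of_small hso2 (Or.inl rfl)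
  · rw [h]; exact exists_neg_of_small hso2 (Or.inr (Or.inl rfl))
  · rw [h]; exact exists_neg_of_small hso2 (Or.inr (Or.inr rfl))
  · obtain ⟨u, hu⟩ := exists_neg_of_small hso2 (t := -1) (Or.inl rfl)
    exact ⟨u, by rw [h]; exact hfour u hu⟩

end Pool.Agent.Work.MP_6dc561_nt.AA
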