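import Pool.Agent.Work.MP_6dc561_nt.AA.Jac

/-!
# Large sieve inequalities for quadratic characters
-/

namespace Pool.Agent.Work.MP_6dc561_nt.AA

/-- the duality principle with weights `w ≥ 1` -/
theorem duality {ι κ : Type*} (s : Finset ι) (t t' : Finset κ) (htt : t' ⊆ t) (X : ι → κ → ℝ)
    (w : κ → ℝ) (hw0 : ∀ n ∈ t, 0 ≤ w n) (hw : ∀ n ∈ t', 1 ≤ w n) (Δ : ℝ)
    (hΔ0 : 0 ≤ Δ)
    (hΔ : ∀ c : ι → ℝ, ∑ n ∈ t, w n * (∑ d ∈ s, c d * X d n) ^ 2 ≤ Δ * ∑ d ∈ s, c d ^ 2)
    (a : κ → ℝ) :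
    ∑ d ∈ s, (∑ n ∈ t', a n * X d n) ^ 2 ≤ Δ * ∑ n ∈ t', a n ^ 2 := by
  set c : ι → ℝ := fun d => ∑ n ∈ t', a n * X d n with hc
  set L : ℝ := ∑ d ∈ s, c d ^ 2 with hL
  have hL0 : 0 ≤ L := Finset.sum_nonneg fun d _ => sq_nonneg _
  have hA0 : 0 ≤ ∑ n ∈ t', a n ^ 2 := Finset.sum_nonneg fun n _ => sq_nonneg _
  have h1 : L = ∑ n ∈ t', a n * ∑ d ∈ s, c d * X d n := by
    calc L = ∑ d ∈ s, c d * ∑ n ∈ t', a n * X d n := Finset.sum_congr rfl fun d _ => sq (c d)
      _ = ∑ d ∈ s, ∑ n ∈ t', c d * (a n * X d n) := Finset.sum_congr rfl fun d _ => Finset.mul_sum ..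
      _ = ∑ n ∈ t', ∑ d ∈ s, c d * (a n * X d n) := Finset.sum_comm
      _ = _ := Finset.sum_congr rfl fun n _ => by
          rw [Finset.mul_sum]; exact Finset.sum_congr rfl fun d _ => by ring
  have h2 : ∑ n ∈ t', (∑ d ∈ s, c d * X d n) ^ 2 ≤ Δ * L := by
    calc ∑ n ∈ t', (∑ d ∈ s, c d * X d n) ^ 2
        ≤ ∑ n ∈ t', w n * (∑ d ∈ s, c d * X d n) ^ 2 := Finset.sum_le_sum fun n hn =>
          le_mul_of_one_le_left (sq_nonneg _) (hw n hn)
      _ ≤ ∑ n ∈ t, w n * (∑ d ∈ s, c d * X d n) ^ 2 :=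
          Finset.sum_le_sum_of_subset_of_nonneg htt fun n hn _ =>
            mul_nonneg (hw0 n hn) (sq_nonneg _)
      _ ≤ Δ * L := hΔ c
  have h3 : L ^ 2 ≤ (∑ n ∈ t', a n ^ 2) * (Δ * L) := by
    calc L ^ 2 = (∑ n ∈ t', a n * ∑ d ∈ s, c d * X d n) ^ 2 := by rw [← h1]
      _ ≤ (∑ n ∈ t', a n ^ 2) * ∑ n ∈ t', (∑ d ∈ s, c d * X d n) ^ 2 :=
          Finset.sum_mul_sq_le_sq_mul_sq _ _ _
      _ ≤ _ := mul_le_mul_of_nonneg_left h2 hA0
  rcases hL0.eq_or_lt with h | h
  · -- `L = 0`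
    rw [← h]
    exact mul_nonneg hΔ0 hA0
  · have h4 : L * L ≤ (Δ * ∑ n ∈ t', a n ^ 2) * L := by nlinarith
    exact le_of_mul_le_mul_right h4 h

/-- a bilinear form with small off-diagonal coefficients -/
theorem form_le {ι : Type*} [DecidableEq ι] (s : Finset ι) (c : ι → ℝ) (Φ : ι → ι → ℝ) (A B : ℝ)
    (hA : ∀ d ∈ s, Φ d d ≤ A) (hB : ∀ d ∈ s, ∀ e ∈ s, d ≠ e → |Φ d e| ≤ B) (hB0 : 0 ≤ B) :
    ∑ d ∈ s, ∑ e ∈ s, c d * c e * Φ d e ≤ (A + B * s.card) * ∑ d ∈ s, c d ^ 2 := by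
  have h1 : ∀ d ∈ s, ∀ e ∈ s, c d * c e * Φ d e ≤
      (if d = e then A * c d ^ 2 else 0) + B * (|c d| * |c e|) := by
    intro d hd e he
    by_cases hde : d = e
    · subst hde
      rw [if_pos rfl]
      have := mul_le_mul_of_nonneg_left (hA d hd) (sq_nonneg (c d))
      have h2 : 0 ≤ B * (|c d| * |c d|) := by positivity
      nlinarith
    · rw [if_neg hde, zero_add]
      calc c d * c e * Φ d e ≤ |c d * c e * Φ d e| := le_abs_self _
        _ = (|c d| * |c e|) * |Φ d e| := by rw [abs_mul, abs_mul]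
        _ ≤ (|c d| * |c e|) * B := mul_le_mul_of_nonneg_left (hB d hd e he hde) (by positivity)
        _ = _ := mul_comm _ _
  calc ∑ d ∈ s, ∑ e ∈ s, c d * c e * Φ d e
      ≤ ∑ d ∈ s, ∑ e ∈ s, ((if d = e then A * c d ^ 2 else 0) + B * (|c d| * |c e|)) :=
        Finset.sum_le_sum fun d hd => Finset.sum_le_sum fun e he => h1 d hd e he
    _ = A * ∑ d ∈ s, c d ^ 2 + B * (∑ d ∈ s, |c d|) ^ 2 := by
        simp_rw [Finset.sum_add_distrib]
        congr 1
        · rw [Finset.mul_sum]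
          refine Finset.sum_congr rfl fun d hd => ?_
          rw [Finset.sum_ite_eq, if_pos hd]
        · rw [sq, Finset.sum_mul_sum, Finset.mul_sum]
          refine Finset.sum_congr rfl fun d _ => ?_
          rw [Finset.mul_sum]
    _ ≤ A * ∑ d ∈ s, c d ^ 2 + B * (s.card * ∑ d ∈ s, c d ^ 2) := by
        gcongr
        have := sq_sum_le_card_mul_sum_sq (s := s) (f := fun d => |c d|)
        simpa only [sq_abs] using this
    _ = _ := by ring

/-- a finite set of squarefree integers of absolute value at most `D` -/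
structure SqfSet (s : Finset ℤ) (D : ℝ) : Prop where
  sqf : ∀ d ∈ s, Squarefree d
  le : ∀ d ∈ s, |(d : ℝ)| ≤ D

theorem SqfSet.nonneg_of_nonempty {s : Finset ℤ} {D : ℝ} (h : SqfSet s D) {d : ℤ} (hd : d ∈ s) :
    0 ≤ D := (abs_nonneg _).trans (h.le d hd)

theorem SqfSet.offdiag {s : Finset ℤ} {D : ℝ} (h : SqfSet s D) {d e : ℤ} (hd : d ∈ s) (he : e ∈ s)
    (hne : d ≠ e) (N : ℕ) : |∑ n ∈ Finset.range N, chi d n * chi e n| ≤ 4 * D ^ 2 := by
  obtain ⟨u, hu⟩ := exists_neg (h.sqf d hd) (h.sqf e he) hne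
  have hd0 : d ≠ 0 := (h.sqf d hd).ne_zero
  have he0 : e ≠ 0 := (h.sqf e he).ne_zero
  have h1 := abs_sum_chi_le (mul_ne_zero hd0 he0) hu N
  simp only [chi_mul_left] at h1
  refine h1.trans ?_
  push_cast
  rw [abs_mul]
  have h2 := mul_le_mul (h.le d hd) (h.le e he) (abs_nonneg _) (h.nonneg_of_nonempty hd)
  nlinarith

theorem expand_sq (s : Finset ℤ) (c : ℤ → ℝ) (T : Finset ℕ) (w : ℕ → ℝ) :
    ∑ n ∈ T, w n * (∑ d ∈ s, c d * chi d n) ^ 2 =
      ∑ d ∈ s, ∑ e ∈ s, c d * c e * ∑ n ∈ T, w n * (chi d n * chi e n) := by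
  calc ∑ n ∈ T, w n * (∑ d ∈ s, c d * chi d n) ^ 2
      = ∑ n ∈ T, ∑ d ∈ s, ∑ e ∈ s, w n * ((c d * chi d n) * (c e * chi e n)) := by
        refine Finset.sum_congr rfl fun n _ => ?_
        rw [sq, Finset.sum_mul_sum, Finset.mul_sum]
        exact Finset.sum_congr rfl fun d _ => Finset.mul_sum ..
    _ = ∑ d ∈ s, ∑ e ∈ s, ∑ n ∈ T, w n * ((c d * chi d n) * (c e * chi e n)) := by
        rw [Finset.sum_comm]
        exact Finset.sum_congr rfl fun d _ => Finset.sum_comm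
    _ = _ := by
        refine Finset.sum_congr rfl fun d _ => Finset.sum_congr rfl fun e _ => ?_
        rw [Finset.mul_sum]
        exact Finset.sum_congr rfl fun n _ => by ring

/-- the quadratic large sieve (elementary form) -/
theorem large_sieve {s : Finset ℤ} {D : ℝ} (h : SqfSet s D) (N : ℕ) (a : ℕ → ℝ) :
    ∑ d ∈ s, (∑ n ∈ Finset.range N, a n * chi d n) ^ 2 ≤
      (N + 4 * D ^ 2 * s.card) * ∑ n ∈ Finset.range N, a n ^ 2 := by
  refine duality s (Finset.range N) (Finset.range N) subset_rfl chi (fun _ => 1)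
    (fun _ _ => zero_le_one) (fun _ _ => le_rfl) _ (by positivity) (fun c => ?_) a
  rw [expand_sq]
  refine form_le s c _ _ _ (fun d _ => ?_) (fun d hd e he hne => ?_) (by positivity)
  · calc ∑ n ∈ Finset.range N, 1 * (chi d n * chi d n) ≤ ∑ n ∈ Finset.range N, (1 : ℝ) := by
          refine Finset.sum_le_sum fun n _ => ?_
          rw [one_mul, ← sq]; exact chi_sq_le d n
      _ = N := by simp
  · simp only [one_mul]
    exact h.offdiag hd he hne N

/-- the number of ways to write `n` as an ordered product of `k` primes is at most `k ^ k` -/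
theorem card_tuples_le (P : Finset ℕ) (hP : ∀ p ∈ P, p.Prime) (k n : ℕ) :
    ((Fintype.piFinset fun _ : Fin k => P).filter fun v => ∏ i, v i = n).card ≤ k ^ k := by
  classical
  rcases ((Fintype.piFinset fun _ : Fin k => P).filter fun v => ∏ i, v i = n).eq_empty_or_nonempty
    with he | ⟨v₀, hv₀⟩
  · rw [he]; simp
  · rw [Finset.mem_filter, Fintype.mem_piFinset] at hv₀
    have hn : n ≠ 0 := by
      rw [← hv₀.2]
      exact Finset.prod_ne_zero_iff.2 fun i _ => (hP _ (hv₀.1 i)).ne_zero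
    have hsub : ((Fintype.piFinset fun _ : Fin k => P).filter fun v => ∏ i, v i = n) ⊆
        Fintype.piFinset fun _ : Fin k => n.primeFactors := by
      intro v hv
      rw [Finset.mem_filter, Fintype.mem_piFinset] at hv
      rw [Fintype.mem_piFinset]
      intro i
      rw [Nat.mem_primeFactors_of_ne_zero hn]
      exact ⟨hP _ (hv.1 i), by rw [← hv.2]; exact Finset.dvd_prod_of_mem _ (Finset.mem_univ i)⟩
    have hcard : n.primeFactors.card ≤ k := by
      have h1 : n.primeFactors ⊆ Finset.univ.image v₀ := by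
        intro p hp
        rw [Nat.mem_primeFactors_of_ne_zero hn] at hp
        rw [← hv₀.2] at hp
        obtain ⟨i, _, hi⟩ := (hp.1.prime.dvd_finsetProd_iff _).1 hp.2
        have := (Nat.prime_dvd_prime_iff_eq hp.1 (hP _ (hv₀.1 i))).1 hi
        rw [Finset.mem_image]
        exact ⟨i, Finset.mem_univ i, this.symm⟩
      calc n.primeFactors.card ≤ (Finset.univ.image v₀).card := Finset.card_le_card h1
        _ ≤ (Finset.univ : Finset (Fin k)).card := Finset.card_image_le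
        _ = k := by simp
    calc _ ≤ (Fintype.piFinset fun _ : Fin k => n.primeFactors).card := Finset.card_le_card hsub
      _ = n.primeFactors.card ^ k := by simp
      _ ≤ k ^ k := Nat.pow_le_pow_left hcard k

theorem chi_prod (d : ℤ) {k : ℕ} (v : Fin k → ℕ) : chi d (∏ i, v i) = ∏ i, chi d (v i) := by
  induction k with
  | zero => simp [chi_one]
  | succ k ih => rw [Fin.prod_univ_succ, Fin.prod_univ_succ, chi_mul_right, ih]

/-- the `2k`-th moment of a sum over primes -/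
theorem moment {s : Finset ℤ} {D : ℝ} (h : SqfSet s D) {P : Finset ℕ} (hP : ∀ p ∈ P, p.Prime)
    {q : ℕ} (hq : ∀ p ∈ P, p ≤ q) {g : ℕ → ℝ} {M : ℝ} (hg : ∀ p ∈ P, |g p| ≤ M) (k : ℕ) :
    ∑ d ∈ s, ((∑ p ∈ P, g p * chi d p) ^ k) ^ 2 ≤
      ((q : ℝ) ^ k + 1 + 4 * D ^ 2 * s.card) * (M ^ (2 * k) * (k : ℝ) ^ k * (P.card : ℝ) ^ k) := by
  classical
  set V : Finset (Fin k → ℕ) := Fintype.piFinset fun _ : Fin k => P with hV
  set N : ℕ := q ^ k + 1 with hN
  set a : ℕ → ℝ := fun n => ∑ v ∈ V.filter fun v => ∏ i, v i = n, ∏ i, g (v i) with ha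
  have hmaps : ∀ v ∈ V, ∏ i, v i ∈ Finset.range N := by
    intro v hv
    rw [hV, Fintype.mem_piFinset] at hv
    rw [Finset.mem_range, hN, Nat.lt_succ_iff]
    calc ∏ i, v i ≤ ∏ _i : Fin k, q := Finset.prod_le_prod' fun i _ => hq _ (hv i)
      _ = q ^ k := by simp
  have hpow : ∀ d, (∑ p ∈ P, g p * chi d p) ^ k = ∑ n ∈ Finset.range N, a n * chi d n := by
    intro d
    have e1 : (∑ p ∈ P, g p * chi d p) ^ k = ∑ v ∈ V, ∏ i, (g (v i) * chi d (v i)) := by
      have := Finset.prod_univ_sum (fun _ : Fin k => P) (fun _ p => g p * chi d p)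
      rw [Finset.prod_const, Finset.card_univ, Fintype.card_fin] at this
      exact this
    rw [e1, ← Finset.sum_fiberwise_of_maps_to hmaps]
    refine Finset.sum_congr rfl fun n _ => ?_
    simp only [ha]
    rw [Finset.sum_mul]
    refine Finset.sum_congr rfl fun v hv => ?_
    rw [Finset.mem_filter] at hv
    rw [Finset.prod_mul_distrib, ← chi_prod, hv.2]
  have habs : ∀ n, |a n| ≤ ((V.filter fun v => ∏ i, v i = n).card : ℝ) * M ^ k := by
    intro n
    calc |a n| ≤ ∑ v ∈ V.filter fun v => ∏ i, v i = n, |∏ i, g (v i)| :=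
          Finset.abs_sum_le_sum_abs _ _
      _ ≤ ∑ _v ∈ V.filter fun v => ∏ i, v i = n, M ^ k := by
          refine Finset.sum_le_sum fun v hv => ?_
          rw [Finset.mem_filter, hV, Fintype.mem_piFinset] at hv
          rw [Finset.abs_prod]
          calc ∏ i, |g (v i)| ≤ ∏ _i : Fin k, M :=
                Finset.prod_le_prod (fun i _ => abs_nonneg _) fun i _ => hg _ (hv.1 i)
            _ = M ^ k := by simp
      _ = _ := by rw [Finset.sum_const, nsmul_eq_mul]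
  have hsum : ∑ n ∈ Finset.range N, a n ^ 2 ≤
      M ^ (2 * k) * (k : ℝ) ^ k * (P.card : ℝ) ^ k := by
    have h1 : ∀ n ∈ Finset.range N, a n ^ 2 ≤
        M ^ (2 * k) * (k : ℝ) ^ k * ((V.filter fun v => ∏ i, v i = n).card : ℝ) := by
      intro n _
      set r : ℝ := ((V.filter fun v => ∏ i, v i = n).card : ℝ) with hr
      have hr0 : 0 ≤ r := Nat.cast_nonneg _
      have hrk : r ≤ (k : ℝ) ^ k := by
        rw [hr]; exact_mod_cast card_tuples_le P hP k n
      have hM2 : 0 ≤ M ^ (2 * k) := by rw [mul_comm, pow_mul]; exact sq_nonneg _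
      calc a n ^ 2 = |a n| ^ 2 := (sq_abs _).symm
        _ ≤ (r * M ^ k) ^ 2 := pow_le_pow_left₀ (abs_nonneg _) (habs n) 2
        _ = M ^ (2 * k) * (r * r) := by ring
        _ ≤ M ^ (2 * k) * ((k : ℝ) ^ k * r) :=
            mul_le_mul_of_nonneg_left (mul_le_mul_of_nonneg_right hrk hr0) hM2
        _ = _ := by ring
    calc ∑ n ∈ Finset.range N, a n ^ 2
        ≤ ∑ n ∈ Finset.range N, M ^ (2 * k) * (k : ℝ) ^ k *
            ((V.filter fun v => ∏ i, v i = n).card : ℝ) := Finset.sum_le_sum h1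
      _ = M ^ (2 * k) * (k : ℝ) ^ k * (V.card : ℝ) := by
          rw [← Finset.mul_sum, Finset.card_eq_sum_card_fiberwise hmaps]
          push_cast; rfl
      _ = _ := by rw [hV]; simp
  calc ∑ d ∈ s, ((∑ p ∈ P, g p * chi d p) ^ k) ^ 2
      = ∑ d ∈ s, (∑ n ∈ Finset.range N, a n * chi d n) ^ 2 :=
        Finset.sum_congr rfl fun d _ => by rw [hpow]
    _ ≤ (N + 4 * D ^ 2 * s.card) * ∑ n ∈ Finset.range N, a n ^ 2 := large_sieve h N a
    _ ≤ _ := by
        have : ((N : ℕ) : ℝ) = (q : ℝ) ^ k + 1 := by rw [hN]; push_cast; ring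
        rw [this]
        exact mul_le_mul_of_nonneg_left hsum (by positivity)

/-- cancellation over `d` for a product of two different odd primes -/
theorem abs_sum_top_le {p q : ℕ} (hp : p.Prime) (hq : q.Prime) (hp2 : p ≠ 2) (hq2 : q ≠ 2)
    (hpq : p ≠ q) (D : ℕ) :
    |∑ i ∈ Finset.range (2 * D + 1), chi ((i : ℤ) - D) (p * q)| ≤ (p * q : ℕ) := by
  have : Fact p.Prime := ⟨hp⟩
  have hpo := hp.odd_of_ne_two hp2
  have hqo := hq.odd_of_ne_two hq2
  set m := p * q with hm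
  have hm0 : 0 < m := Nat.mul_pos hp.pos hq.pos
  have hmo : Odd m := hpo.mul hqo
  have : NeZero m := ⟨hm0.ne'⟩
  have hchar : ringChar (ZMod p) ≠ 2 := by rw [ZMod.ringChar_zmod_n]; exact hp2
  obtain ⟨r, hr⟩ := FiniteField.exists_nonsquare (F := ZMod p) hchar
  have hcop : Nat.Coprime p q := (Nat.coprime_primes hp hq).2 hpq
  obtain ⟨u, hu1, hu2⟩ := Nat.chineseRemainder hcop r.val 1
  have hJ : ∀ {a b : ℤ}, a % m = b % m → chi a m = chi b m := by
    intro a b hab
    unfold chi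
    rw [if_pos hmo, if_pos hmo, jacobiSym.mod_left' hab]
  have hu : chi (u : ℤ) m = -1 := by
    rw [hm, chi_mul_right]
    have h1 : chi (u : ℤ) p = -1 := by
      unfold chi
      rw [if_pos hpo, ← jacobiSym.legendreSym.to_jacobiSym, (legendreSym.eq_neg_one_iff p).2]
      · norm_num
      · have e : ((u : ℤ) : ZMod p) = r := by
          rw [Int.cast_natCast, (ZMod.natCast_eq_natCast_iff u r.val p).2 hu1,
            ZMod.natCast_zmod_val]
        rw [e]; exact hr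
    have h2 : chi (u : ℤ) q = 1 := by
      unfold chi
      rw [if_pos hqo, jacobiSym.mod_left' (a₂ := 1), jacobiSym.one_left]
      · norm_num
      · have := (Int.natCast_modEq_iff).2 hu2
        exact_mod_cast this
    rw [h1, h2]; norm_num
  have hucop : u.Coprime m := by
    have h1 : jacobiSym u m ≠ 0 := by
      intro h
      unfold chi at hu
      rw [if_pos hmo, h] at hu
      norm_num at hu
    rw [Ne, jacobiSym.eq_zero_iff_not_coprime, not_not] at h1
    rwa [Int.gcd_eq_natAbs, Int.natAbs_natCast, Int.natAbs_natCast] at h1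
  set H : ZMod m → ℝ := fun z => chi (z.val : ℤ) m with hH
  have hHn : ∀ n : ℤ, H (n : ZMod m) = chi n m := by
    intro n
    simp only [hH]
    apply hJ
    rw [ZMod.val_intCast, Int.emod_emod_of_dvd _ dvd_rfl]
  have hmulH : ∀ z, H ((ZMod.unitOfCoprime u hucop : (ZMod m)ˣ) * z) = - H z := by
    intro z
    have e1 : ((ZMod.unitOfCoprime u hucop : (ZMod m)ˣ) : ZMod m) * z =
        (((u : ℤ) * (z.val : ℤ) : ℤ) : ZMod m) := by
      push_cast
      rw [ZMod.coe_unitOfCoprime, ZMod.natCast_zmod_val]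
    rw [e1, hHn, chi_mul_left, hu]
    simp only [hH]
    ring
  have hzero := sum_range_eq_zero hm0 H _ hmulH ((-(D : ℤ) : ℤ) : ZMod m)
  have hterm : ∀ n : ℕ, H ((n : ZMod m) + ((-(D : ℤ) : ℤ) : ZMod m)) = chi ((n : ℤ) - D) m := by
    intro n
    rw [← hHn]
    congr 1
    push_cast; ring
  simp only [hterm] at hzero
  exact abs_sum_range_le (h := fun i => chi ((i : ℤ) - D) m) hm0 (fun n => by
    apply hJ
    push_cast
    have : (n : ℤ) + m - D = (n - D) + m := by ring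
    rw [this, Int.add_emod_right]) hzero (fun n => abs_chi_le _ _) _

/-- second moment over a long range of `d` -/
theorem second_moment {s : Finset ℤ} {D : ℕ} (h : SqfSet s D) {P : Finset ℕ}
    (hP : ∀ p ∈ P, p.Prime ∧ p ≠ 2) {q : ℕ} (hq : ∀ p ∈ P, p ≤ q) {g : ℕ → ℝ} {M : ℝ}
    (_hM : 0 ≤ M) (hg : ∀ p ∈ P, |g p| ≤ M) :
    ∑ d ∈ s, (∑ p ∈ P, g p * chi d p) ^ 2 ≤
      M ^ 2 * ((2 * D + 1) * P.card + (P.card : ℝ) ^ 2 * (q : ℝ) ^ 2) := by
  classical
  -- extend the sum to all integers in `[-D, D]`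
  have hsub : s ⊆ (Finset.range (2 * D + 1)).image fun i : ℕ => (i : ℤ) - D := by
    intro d hd
    have h1 := h.le d hd
    have h2 : |d| ≤ D := by exact_mod_cast h1
    rw [abs_le] at h2
    rw [Finset.mem_image]
    exact ⟨(d + D).toNat, by rw [Finset.mem_range]; omega, by omega⟩
  have h1 : ∑ d ∈ s, (∑ p ∈ P, g p * chi d p) ^ 2 ≤
      ∑ i ∈ Finset.range (2 * D + 1), (∑ p ∈ P, g p * chi ((i : ℤ) - D) p) ^ 2 := by
    calc _ ≤ ∑ d ∈ (Finset.range (2 * D + 1)).image fun i : ℕ => (i : ℤ) - D,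
          (∑ p ∈ P, g p * chi d p) ^ 2 :=
          Finset.sum_le_sum_of_subset_of_nonneg hsub fun d _ _ => sq_nonneg _
      _ = _ := by
          rw [Finset.sum_image]
          intro x _ y _ hxy
          simpa using hxy
  refine h1.trans ?_
  have h2 : ∑ i ∈ Finset.range (2 * D + 1), (∑ p ∈ P, g p * chi ((i : ℤ) - D) p) ^ 2 =
      ∑ p ∈ P, ∑ r ∈ P, g p * g r * ∑ i ∈ Finset.range (2 * D + 1),
        (chi ((i : ℤ) - D) p * chi ((i : ℤ) - D) r) := by
    calc _ = ∑ i ∈ Finset.range (2 * D + 1), ∑ p ∈ P, ∑ r ∈ P,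
          (g p * chi ((i : ℤ) - D) p) * (g r * chi ((i : ℤ) - D) r) := by
          refine Finset.sum_congr rfl fun i _ => ?_
          rw [sq, Finset.sum_mul_sum]
      _ = ∑ p ∈ P, ∑ r ∈ P, ∑ i ∈ Finset.range (2 * D + 1),
          (g p * chi ((i : ℤ) - D) p) * (g r * chi ((i : ℤ) - D) r) := by
          rw [Finset.sum_comm]
          exact Finset.sum_congr rfl fun p _ => Finset.sum_comm
      _ = _ := by
          refine Finset.sum_congr rfl fun p _ => Finset.sum_congr rfl fun r _ => ?_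
          rw [Finset.mul_sum]
          exact Finset.sum_congr rfl fun i _ => by ring
  rw [h2]
  have h3 := form_le P g (fun p r => ∑ i ∈ Finset.range (2 * D + 1),
        (chi ((i : ℤ) - D) p * chi ((i : ℤ) - D) r)) (2 * D + 1) ((q : ℝ) ^ 2)
    (fun p _ => by
      calc ∑ i ∈ Finset.range (2 * D + 1), (chi ((i : ℤ) - D) p * chi ((i : ℤ) - D) p)
          ≤ ∑ i ∈ Finset.range (2 * D + 1), (1 : ℝ) := Finset.sum_le_sum fun i _ => by
            rw [← sq]; exact chi_sq_le _ _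
        _ = 2 * D + 1 := by simp)
    (fun p hp r hr hne => by
      have h4 := abs_sum_top_le (hP p hp).1 (hP r hr).1 (hP p hp).2 (hP r hr).2 hne D
      simp only [chi_mul_right] at h4
      refine h4.trans ?_
      push_cast
      have h5 : (p : ℝ) ≤ q := by exact_mod_cast hq p hp
      have h6 : (r : ℝ) ≤ q := by exact_mod_cast hq r hr
      nlinarith [(Nat.cast_nonneg p : (0 : ℝ) ≤ p), (Nat.cast_nonneg r : (0 : ℝ) ≤ r)])
    (by positivity)
  refine h3.trans ?_
  have h4 : ∑ p ∈ P, g p ^ 2 ≤ P.card * M ^ 2 := by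
    calc ∑ p ∈ P, g p ^ 2 ≤ ∑ _p ∈ P, M ^ 2 := Finset.sum_le_sum fun p hp => by
          rw [← sq_abs]; exact pow_le_pow_left₀ (abs_nonneg _) (hg p hp) 2
      _ = _ := by rw [Finset.sum_const, nsmul_eq_mul]
  calc (2 * (D : ℝ) + 1 + (q : ℝ) ^ 2 * P.card) * ∑ p ∈ P, g p ^ 2
      ≤ (2 * (D : ℝ) + 1 + (q : ℝ) ^ 2 * P.card) * (P.card * M ^ 2) :=
        mul_le_mul_of_nonneg_left h4 (by positivity)
    _ = _ := by ring

end Pool.Agent.Work.MP_6dc561_nt.AA
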