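import Pool.Agent.Work.MP_6dc561_nt.Defs

/-!
# Genus two curves over the rational numbers and their quadratic twists
-/

open Polynomial

namespace Pool.Agent.Work.MP_6dc561_nt.AA

/-- The number of points of the smooth projective model of `d y² = f(x)` over the field with
`p ^ n` elements, for a prime `p` (and `0` if `p` is not prime). -/
noncomputable def ptCount (f : ℤ[X]) (d : ℤ) (p n : ℕ) : ℕ :=
  if h : p.Prime then
    haveI := Fact.mk h
    numPoints (ZMod p) n (d : ZMod p) (f.map (Int.castRingHom (ZMod p)))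
  else 0

/-- The trace `a_p` of Frobenius at `p` of the curve `d y² = f(x)`. -/
noncomputable def aQ (f : ℤ[X]) (d : ℤ) (p : ℕ) : ℝ := (p : ℝ) + 1 - ptCount f d p 1

/-- The second coefficient `b_p` of the characteristic polynomial
`T⁴ - a_p T³ + b_p T² - p a_p T + p²` of Frobenius at `p` of the curve `d y² = f(x)`. -/
noncomputable def bQ (f : ℤ[X]) (d : ℤ) (p : ℕ) : ℝ :=
  ((ptCount f d p 2 : ℝ) + aQ f d p ^ 2 - (p : ℝ) ^ 2 - 1) / 2

/-- The primes at which the equation `d y² = f(x)` has good reduction: `p` is odd, does not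
divide `d`, and the reduction of `f` has degree at least five and no repeated roots. -/
def goodQ (f : ℤ[X]) (d : ℤ) : Set ℕ :=
  {p | p.Prime ∧ p ≠ 2 ∧ ¬ (p : ℤ) ∣ d ∧ (f.map (Int.castRingHom (ZMod p))).Separable ∧
    5 ≤ (f.map (Int.castRingHom (ZMod p))).natDegree}

open Classical in
/-- The primes of good reduction up to `x`. -/
noncomputable def goodUpToQ (f : ℤ[X]) (d : ℤ) (x : ℕ) : Finset ℕ :=
  (Finset.Icc 1 x).filter (· ∈ goodQ f d)

/-- The average, over the primes `p ≤ x` of good reduction, of the class function `G` at the class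
`s(p)` of the normalised Frobenius of `d y² = f(x)`, whose characteristic polynomial is
`T⁴ - (a_p/√p) T³ + (b_p/p) T² - (a_p/√p) T + 1`. -/
noncomputable def avgQ (f : ℤ[X]) (d : ℤ) (G : ℝ → ℝ → ℝ) (x : ℕ) : ℝ :=
  (∑ p ∈ goodUpToQ f d x, G (aQ f d p / Real.sqrt p) (bQ f d p / p)) / (goodUpToQ f d x).card

/-- The even part of a class function: the average of its values at `g` and at `-g`. -/
noncomputable def evenPart (G : ℝ → ℝ → ℝ) (x y : ℝ) : ℝ := (G x y + G (-x) y) / 2

end Pool.Agent.Work.MP_6dc561_nt.AA
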