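import Pool.Agent.Work.MP_6dc561_nt.AA.LS
import Pool.Agent.Work.MP_484fb8_nt.GLower

/-!
# Selberg weights and a large sieve for sums over primes
-/

set_option autoImplicit false

open Finset Nat ArithmeticFunction BoundingSieve
open Pool.Agent.Work.MP_484fb8_nt (GSum wt GSum_pos wt_one wt_eq_zero_of_not_dvd wt_eq_zero_of_lt
  mainSum_wt abs_wt_le_one sqf harmonic_le_sqf log_le_sum_inv sum_le_sum_of_injOn')

namespace Pool.Agent.Work.MP_6dc561_nt.AA

/-- `1/d` -/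
noncomputable def nuInv : ArithmeticFunction ℝ :=
  ArithmeticFunction.prodPrimeFactors (fun p => (1 : ℝ) / p)

theorem nuInv_prime {p : ℕ} (hp : p.Prime) : nuInv p = 1 / p := by
  unfold nuInv
  rw [ArithmeticFunction.prodPrimeFactors_apply hp.ne_zero, hp.primeFactors, prod_singleton]

theorem nuInv_sqf {d : ℕ} (hd : Squarefree d) : nuInv d = 1 / d := by
  unfold nuInv
  rw [ArithmeticFunction.prodPrimeFactors_apply hd.ne_zero]
  have h1 : (d : ℝ) = ∏ p ∈ d.primeFactors, (p : ℝ) := by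
    rw [← Nat.cast_prod, Nat.prod_primeFactors_of_squarefree hd]
  rw [h1, prod_div_distrib, prod_const_one]

/-- the sieve by the primes up to `R` -/
noncomputable def sv (R : ℕ) : BoundingSieve where
  support := ∅
  prodPrimes := primorial R
  prodPrimes_squarefree := squarefree_primorial R
  weights := fun _ => 1
  weights_nonneg := fun _ => zero_le_one
  totalMass := 0
  nu := nuInv
  nu_mult := ArithmeticFunction.IsMultiplicative.prodPrimeFactors _
  nu_pos_of_prime := fun p hp _ => by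
    rw [nuInv_prime hp]
    have : (0 : ℝ) < p := by exact_mod_cast hp.pos
    positivity
  nu_lt_one_of_prime := fun p hp _ => by
    rw [nuInv_prime hp]
    have h0 : (0 : ℝ) < p := by exact_mod_cast hp.pos
    rw [div_lt_one h0]
    exact_mod_cast hp.one_lt

theorem selbergTerms_ge {R l : ℕ} (hl : l ∣ primorial R) :
    (1 : ℝ) / l ≤ (sv R).selbergTerms l := by
  have hsq : Squarefree l := (squarefree_primorial R).squarefree_of_dvd hl
  rw [selbergTerms_apply]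
  change _ ≤ nuInv l * ∏ p ∈ l.primeFactors, (1 - nuInv p)⁻¹
  rw [nuInv_sqf hsq]
  have h1 : (1 : ℝ) ≤ ∏ p ∈ l.primeFactors, (1 - nuInv p)⁻¹ := by
    have : (1 : ℝ) = ∏ p ∈ l.primeFactors, (1 : ℝ) := by simp
    rw [this]
    apply prod_le_prod
    · intro _ _; exact zero_le_one
    · intro p hp
      have hpp := Nat.prime_of_mem_primeFactors hp
      rw [nuInv_prime hpp]
      have h2 : (0 : ℝ) < p := by exact_mod_cast hpp.pos
      have h3 : (1 : ℝ) < p := by exact_mod_cast hpp.one_lt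
      have h4 : (1 : ℝ) / p < 1 := by rw [div_lt_one h2]; exact h3
      have h5 : (0 : ℝ) < 1 / p := by positivity
      rw [one_le_inv₀ (by linarith)]
      linarith
  have h2 : (0 : ℝ) ≤ 1 / l := by positivity
  calc (1 : ℝ) / l = 1 / l * 1 := (mul_one _).symm
    _ ≤ _ := mul_le_mul_of_nonneg_left h1 h2

theorem GSum_ge {R : ℕ} (hR : 1 ≤ R) : Real.log R / 2 ≤ GSum (sv R) R := by
  have h1 : ∑ l ∈ sqf R, (1 : ℝ) / l ≤ GSum (sv R) R := by
    unfold GSum
    apply sum_le_sum_of_injOn' _ _ (fun l => l)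
    · intro l hl
      unfold sqf at hl
      rw [mem_filter, mem_Icc] at hl
      rw [mem_filter, mem_divisors]
      refine ⟨⟨?_, (primorial_ne_zero R : primorial R ≠ 0)⟩, hl.1.2⟩
      have h1 : l ∣ primorial l := Squarefree.dvd_primorial hl.2
      exact h1.trans (primorial_dvd_primorial hl.1.2)
    · intro a _ b _ hab; exact hab
    · intro l hl
      unfold sqf at hl
      rw [mem_filter, mem_Icc] at hl
      apply selbergTerms_ge
      have h1 : l ∣ primorial l := Squarefree.dvd_primorial hl.2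
      exact h1.trans (primorial_dvd_primorial hl.1.2)
    · intro l hl
      rw [mem_filter, mem_divisors] at hl
      exact (selbergTerms_pos hl.1.1).le
  have h2 := harmonic_le_sqf R
  have h3 := log_le_sum_inv R hR
  linarith

/-- the weights -/
noncomputable def lam (R e : ℕ) : ℝ := wt (sv R) R e

theorem lam_one {R : ℕ} (hR : 1 ≤ R) : lam R 1 = 1 := wt_one hR

theorem abs_lam_le {R : ℕ} (hR : 1 ≤ R) (e : ℕ) : |lam R e| ≤ 1 := abs_wt_le_one hR e

theorem lam_form {R : ℕ} (hR : 1 ≤ R) :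
    ∑ a ∈ Icc 1 R, ∑ b ∈ Icc 1 R, lam R a * lam R b * (1 / (Nat.lcm a b : ℝ)) =
      (GSum (sv R) R)⁻¹ := by
  rw [← mainSum_wt hR, mainSum_lambdaSquared_eq_sum_sum_mul]
  -- pass to the common index set
  have key : ∀ F : ℕ → ℝ, (∀ a, F a = F a) → (∀ a, lam R a = 0 → F a = 0) →
      ∑ a ∈ Icc 1 R, F a = ∑ a ∈ (sv R).prodPrimes.divisors, F a := by
    intro F _ hF
    have e1 : ∑ a ∈ Icc 1 R, F a =
        ∑ a ∈ Icc 1 R with a ∣ (sv R).prodPrimes, F a := by
      rw [sum_filter]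
      refine sum_congr rfl fun a _ => ?_
      split_ifs with h
      · rfl
      · exact hF a (wt_eq_zero_of_not_dvd h)
    have e2 : ∑ a ∈ (sv R).prodPrimes.divisors, F a =
        ∑ a ∈ (sv R).prodPrimes.divisors with a ≤ R, F a := by
      rw [sum_filter]
      refine sum_congr rfl fun a _ => ?_
      split_ifs with h
      · rfl
      · exact hF a (wt_eq_zero_of_lt (not_le.1 h))
    rw [e1, e2]
    refine sum_congr ?_ fun _ _ => rfl
    ext a
    simp only [mem_filter, mem_Icc, mem_divisors]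
    constructor
    · rintro ⟨⟨_, h2⟩, h3⟩
      exact ⟨⟨h3, prodPrimes_ne_zero⟩, h2⟩
    · rintro ⟨⟨h1, h2⟩, h3⟩
      exact ⟨⟨Nat.pos_of_dvd_of_pos h1 (Nat.pos_of_ne_zero h2), h3⟩, h1⟩
  rw [key _ (fun _ => rfl) (fun a ha => by
    refine sum_eq_zero fun b _ => ?_
    rw [ha]; ring)]
  refine sum_congr rfl fun a ha => ?_
  rw [key _ (fun _ => rfl) (fun b hb => by rw [hb]; ring)]
  refine sum_congr rfl fun b hb => ?_
  rw [mem_divisors] at ha hb
  have hsa : Squarefree a := (squarefree_primorial R).squarefree_of_dvd ha.1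
  have hsb : Squarefree b := (squarefree_primorial R).squarefree_of_dvd hb.1
  have hsg : Squarefree (a.gcd b) := hsa.squarefree_of_dvd (Nat.gcd_dvd_left a b)
  change _ = nuInv a * lam R a * nuInv b * lam R b * (nuInv (a.gcd b))⁻¹
  rw [nuInv_sqf hsa, nuInv_sqf hsb, nuInv_sqf hsg]
  have ha0 : (a : ℝ) ≠ 0 := by exact_mod_cast hsa.ne_zero
  have hb0 : (b : ℝ) ≠ 0 := by exact_mod_cast hsb.ne_zero
  have hg0 : (a.gcd b : ℝ) ≠ 0 := by exact_mod_cast hsg.ne_zero
  have hl0 : (Nat.lcm a b : ℝ) ≠ 0 := by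
    exact_mod_cast Nat.lcm_ne_zero hsa.ne_zero hsb.ne_zero
  have hm : (a.gcd b : ℝ) * (Nat.lcm a b : ℝ) = a * b := by
    exact_mod_cast Nat.gcd_mul_lcm a b
  rw [one_div, one_div, one_div, one_div, inv_inv]
  have : ((Nat.lcm a b : ℝ))⁻¹ = (a : ℝ)⁻¹ * (b : ℝ)⁻¹ * (a.gcd b : ℝ) := by
    field_simp
    linarith
  rw [this]; ring

/-- the weight function -/
noncomputable def nuw (R n : ℕ) : ℝ := (∑ e ∈ Icc 1 R, if e ∣ n then lam R e else 0) ^ 2

theorem nuw_nonneg (R n : ℕ) : 0 ≤ nuw R n := sq_nonneg _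

theorem nuw_prime {R p : ℕ} (hR : 1 ≤ R) (hp : p.Prime) (hRp : R < p) : nuw R p = 1 := by
  unfold nuw
  have : ∑ e ∈ Icc 1 R, (if e ∣ p then lam R e else 0) = lam R 1 := by
    rw [sum_eq_single 1]
    · simp
    · intro e he hne
      rw [mem_Icc] at he
      rw [if_neg]
      intro hd
      rcases (Nat.dvd_prime hp).1 hd with h | h
      · exact hne h
      · omega
    · intro h
      exact absurd (mem_Icc.2 ⟨le_rfl, hR⟩) h
  rw [this, lam_one hR, one_pow]

theorem sum_nuw_mul (R : ℕ) (T : Finset ℕ) (F : ℕ → ℝ) :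
    ∑ n ∈ T, nuw R n * F n = ∑ a ∈ Icc 1 R, ∑ b ∈ Icc 1 R, lam R a * lam R b *
      ∑ n ∈ T with Nat.lcm a b ∣ n, F n := by
  calc ∑ n ∈ T, nuw R n * F n
      = ∑ n ∈ T, ∑ a ∈ Icc 1 R, ∑ b ∈ Icc 1 R,
          lam R a * lam R b * (if Nat.lcm a b ∣ n then F n else 0) := by
        refine sum_congr rfl fun n _ => ?_
        unfold nuw
        rw [sq, sum_mul_sum, sum_mul]
        refine sum_congr rfl fun a _ => ?_
        rw [sum_mul]
        refine sum_congr rfl fun b _ => ?_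
        by_cases h1 : a ∣ n <;> by_cases h2 : b ∣ n
        · rw [if_pos h1, if_pos h2, if_pos (Nat.lcm_dvd h1 h2)]
        · rw [if_pos h1, if_neg h2, if_neg (fun h => h2 ((Nat.dvd_lcm_right a b).trans h))]; ring
        · rw [if_neg h1, if_pos h2, if_neg (fun h => h1 ((Nat.dvd_lcm_left a b).trans h))]; ring
        · rw [if_neg h1, if_neg h2, if_neg (fun h => h1 ((Nat.dvd_lcm_left a b).trans h))]; ring
    _ = ∑ a ∈ Icc 1 R, ∑ b ∈ Icc 1 R, ∑ n ∈ T,
          lam R a * lam R b * (if Nat.lcm a b ∣ n then F n else 0) := by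
        rw [sum_comm]
        refine sum_congr rfl fun a _ => ?_
        rw [sum_comm]
    _ = _ := by
        refine sum_congr rfl fun a _ => sum_congr rfl fun b _ => ?_
        rw [← mul_sum, sum_filter]

/-- multiples of `L` up to `N` -/
theorem sum_multiples {L : ℕ} (hL : 0 < L) (N : ℕ) (F : ℕ → ℝ) :
    ∑ n ∈ Icc 1 N with L ∣ n, F n = ∑ m ∈ Icc 1 (N / L), F (L * m) := by
  symm
  refine sum_bij (fun m _ => L * m) ?_ ?_ ?_ ?_
  · intro m hm
    rw [mem_Icc] at hm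
    rw [mem_filter, mem_Icc]
    refine ⟨⟨Nat.mul_pos hL hm.1, ?_⟩, dvd_mul_right _ _⟩
    have := Nat.mul_le_mul_left L hm.2
    exact this.trans (Nat.mul_div_le N L)
  · intro a _ b _ hab
    exact Nat.eq_of_mul_eq_mul_left hL hab
  · intro n hn
    rw [mem_filter, mem_Icc] at hn
    obtain ⟨⟨h1, h2⟩, m, rfl⟩ := hn
    refine ⟨m, ?_, rfl⟩
    rw [mem_Icc]
    refine ⟨Nat.pos_of_ne_zero (by rintro rfl; simp at h1), ?_⟩
    rwa [Nat.le_div_iff_mul_le hL, mul_comm]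
  · intro m _; rfl

theorem abs_form_err_le {R : ℕ} (hR : 1 ≤ R) (E : ℕ → ℕ → ℝ) {B : ℝ}
    (hE : ∀ a ∈ Icc 1 R, ∀ b ∈ Icc 1 R, |E a b| ≤ B) :
    |∑ a ∈ Icc 1 R, ∑ b ∈ Icc 1 R, lam R a * lam R b * E a b| ≤ B * (R : ℝ) ^ 2 := by
  calc |∑ a ∈ Icc 1 R, ∑ b ∈ Icc 1 R, lam R a * lam R b * E a b|
      ≤ ∑ a ∈ Icc 1 R, ∑ b ∈ Icc 1 R, |lam R a * lam R b * E a b| :=
        (abs_sum_le_sum_abs _ _).trans (sum_le_sum fun a _ => abs_sum_le_sum_abs _ _)
    _ ≤ ∑ a ∈ Icc 1 R, ∑ b ∈ Icc 1 R, B := by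
        refine sum_le_sum fun a ha => sum_le_sum fun b hb => ?_
        rw [abs_mul, abs_mul]
        have h1 : |lam R a| * |lam R b| ≤ 1 :=
          mul_le_one₀ (abs_lam_le hR a) (abs_nonneg _) (abs_lam_le hR b)
        calc |lam R a| * |lam R b| * |E a b| ≤ 1 * B :=
              mul_le_mul h1 (hE a ha b hb) (abs_nonneg _) zero_le_one
          _ = B := one_mul B
    _ = B * (R : ℝ) ^ 2 := by
        rw [sum_const, sum_const, Nat.card_Icc]
        simp only [nsmul_eq_mul, Nat.add_sub_cancel]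
        ring

theorem sum_nuw_le {R : ℕ} (hR : 2 ≤ R) (N : ℕ) :
    ∑ n ∈ Icc 1 N, nuw R n ≤ 2 * N / Real.log R + (R : ℝ) ^ 2 := by
  have hR1 : 1 ≤ R := by omega
  have hlog : 0 < Real.log R := Real.log_pos (by exact_mod_cast hR)
  have h1 : ∑ n ∈ Icc 1 N, nuw R n = ∑ a ∈ Icc 1 R, ∑ b ∈ Icc 1 R, lam R a * lam R b *
      ((N / Nat.lcm a b : ℕ) : ℝ) := by
    have := sum_nuw_mul R (Icc 1 N) (fun _ => 1)
    simp only [mul_one] at this
    rw [this]
    refine sum_congr rfl fun a ha => sum_congr rfl fun b hb => ?_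
    rw [mem_Icc] at ha hb
    have hL : 0 < Nat.lcm a b := Nat.lcm_pos ha.1 hb.1
    rw [sum_multiples hL]
    simp
  have h2 : ∑ a ∈ Icc 1 R, ∑ b ∈ Icc 1 R, lam R a * lam R b * ((N / Nat.lcm a b : ℕ) : ℝ) =
      N * (∑ a ∈ Icc 1 R, ∑ b ∈ Icc 1 R, lam R a * lam R b * (1 / (Nat.lcm a b : ℝ))) +
      ∑ a ∈ Icc 1 R, ∑ b ∈ Icc 1 R, lam R a * lam R b *
        (((N / Nat.lcm a b : ℕ) : ℝ) - N / (Nat.lcm a b : ℝ)) := by
    rw [mul_sum, ← sum_add_distrib]
    refine sum_congr rfl fun a _ => ?_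
    rw [mul_sum, ← sum_add_distrib]
    refine sum_congr rfl fun b _ => ?_
    ring
  have h3 := abs_form_err_le hR1 (fun a b => ((N / Nat.lcm a b : ℕ) : ℝ) - N / (Nat.lcm a b : ℝ))
    (B := 1) (fun a ha b hb => by
      rw [mem_Icc] at ha hb
      have hL : 0 < Nat.lcm a b := Nat.lcm_pos ha.1 hb.1
      have hL' : (0 : ℝ) < (Nat.lcm a b : ℝ) := by exact_mod_cast hL
      have e1 : ((N / Nat.lcm a b : ℕ) : ℝ) ≤ N / (Nat.lcm a b : ℝ) := Nat.cast_div_le
      have e2 : (N : ℝ) / (Nat.lcm a b : ℝ) < ((N / Nat.lcm a b : ℕ) : ℝ) + 1 := by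
        rw [div_lt_iff₀ hL']
        have := Nat.lt_mul_div_succ N hL
        rw [mul_comm] at this
        exact_mod_cast this
      rw [abs_le]
      constructor <;> linarith)
  rw [h1, h2, lam_form hR1]
  have h4 := GSum_ge hR1
  have h5 : (GSum (sv R) R)⁻¹ ≤ 2 / Real.log R := by
    rw [← inv_div]
    exact inv_anti₀ (by positivity) h4
  have h6 := (abs_le.1 h3).2
  have h7 : (N : ℝ) * (GSum (sv R) R)⁻¹ ≤ N * (2 / Real.log R) :=
    mul_le_mul_of_nonneg_left h5 (Nat.cast_nonneg _)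
  have h8 : (N : ℝ) * (2 / Real.log R) = 2 * N / Real.log R := by ring
  linarith

theorem abs_sum_nuw_chi_le {s : Finset ℤ} {D : ℝ} (h : SqfSet s D) {d e : ℤ} (hd : d ∈ s)
    (he : e ∈ s) (hne : d ≠ e) {R : ℕ} (hR : 1 ≤ R) (N : ℕ) :
    |∑ n ∈ Icc 1 N, nuw R n * (chi d n * chi e n)| ≤ 4 * D ^ 2 * (R : ℝ) ^ 2 := by
  rw [sum_nuw_mul]
  refine abs_form_err_le hR (fun a b => ∑ n ∈ Icc 1 N with Nat.lcm a b ∣ n, chi d n * chi e n)
    (fun a ha b hb => ?_)
  rw [mem_Icc] at ha hb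
  have hL : 0 < Nat.lcm a b := Nat.lcm_pos ha.1 hb.1
  rw [sum_multiples hL]
  have h1 : ∑ m ∈ Icc 1 (N / Nat.lcm a b), chi d (Nat.lcm a b * m) * chi e (Nat.lcm a b * m) =
      (chi d (Nat.lcm a b) * chi e (Nat.lcm a b)) *
        ∑ m ∈ Finset.range (N / Nat.lcm a b + 1), chi d m * chi e m := by
    have h0 : ∑ m ∈ Finset.range (N / Nat.lcm a b + 1), chi d m * chi e m =
        ∑ m ∈ Icc 1 (N / Nat.lcm a b), chi d m * chi e m := by
      rw [Finset.sum_range_succ']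
      have hz : chi d 0 = 0 := by simp [chi]
      rw [hz, zero_mul, add_zero, Finset.range_eq_Ico,
        Finset.sum_Ico_add' (fun m => chi d m * chi e m) 0 (N / Nat.lcm a b) 1]
      rfl
    rw [h0, mul_sum]
    refine sum_congr rfl fun m _ => ?_
    rw [chi_mul_right, chi_mul_right]; ring
  rw [h1, abs_mul]
  have h2 := h.offdiag hd he hne (N / Nat.lcm a b + 1)
  have h3 : |chi d (Nat.lcm a b) * chi e (Nat.lcm a b)| ≤ 1 := by
    rw [abs_mul]
    exact mul_le_one₀ (abs_chi_le _ _) (abs_nonneg _) (abs_chi_le _ _)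
  calc _ ≤ 1 * (4 * D ^ 2) := mul_le_mul h3 h2 (abs_nonneg _) zero_le_one
    _ = _ := one_mul _

/-- the large sieve for sums over primes in `(R, q]` -/
theorem large_sieve_primes {s : Finset ℤ} {D : ℝ} (h : SqfSet s D) {P : Finset ℕ} {R q : ℕ}
    (hR : 2 ≤ R) (hP : ∀ p ∈ P, p.Prime ∧ R < p ∧ p ≤ q) (g : ℕ → ℝ) :
    ∑ d ∈ s, (∑ p ∈ P, g p * chi d p) ^ 2 ≤
      (2 * q / Real.log R + (R : ℝ) ^ 2 + 4 * D ^ 2 * (R : ℝ) ^ 2 * s.card) *
        ∑ p ∈ P, g p ^ 2 := by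
  classical
  have hR1 : 1 ≤ R := by omega
  have hlog : 0 < Real.log R := Real.log_pos (by exact_mod_cast hR)
  refine duality s (Icc 1 q) P (fun p hp => ?_) chi (nuw R) (fun n _ => nuw_nonneg R n)
    (fun p hp => ?_) _ (by positivity) (fun c => ?_) g
  · obtain ⟨h1, h2, h3⟩ := hP p hp
    exact mem_Icc.2 ⟨h1.one_lt.le, h3⟩
  · obtain ⟨h1, h2, h3⟩ := hP p hp
    rw [nuw_prime hR1 h1 h2]
  · rw [expand_sq]
    refine form_le s c _ _ _ (fun d _ => ?_) (fun d hd e he hne => ?_) (by positivity)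
    · refine le_trans ?_ (sum_nuw_le hR q)
      refine sum_le_sum fun n _ => ?_
      have h1 : chi d n * chi d n ≤ 1 := by
        rw [← sq]; exact chi_sq_le _ _
      calc nuw R n * (chi d n * chi d n) ≤ nuw R n * 1 :=
            mul_le_mul_of_nonneg_left h1 (nuw_nonneg R n)
        _ = nuw R n := mul_one _
    · exact abs_sum_nuw_chi_le h hd he hne hR1 q

end Pool.Agent.Work.MP_6dc561_nt.AA
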